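import Pool.Agent.Helper77.LA.Root
import Pool.Agent.Helper43.TZ.Src

/-!
# Project TZ, block LIE, part Fld: the fields of `VSrc`

`E i` the matrix of the projection on `rsp A (e 0 - e i.succ)`, `Y i j = TT_to b y`, `y ∈ rsp A (e i.succ - e j.succ)`, `W` the sum of the spaces `TT_to b (rsp A (e i.succ - e j.succ))`.
-/

set_option autoImplicit false

open Matrix

namespace Pool.Agent.Helper77.LA

open Pool.Agent.Helper96.SA Pool.Agent.Helper96.FR Pool.Agent.Helper96.TO Pool.Agent.Helper43.TA Pool.Agent.Helper43.TZ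

variable {L : Type} [LieRing L] [LieAlgebra ℝ L] {N m : ℕ} {θ : L ≃ₗ⁅ℝ⁆ L} {b : Module.Basis (Fin N) ℝ L}
  {G : Subgroup (GL (Fin N) ℝ)} {A : Submodule ℝ L} {e : Fin (m + 1) → Module.Dual ℝ A}

/-- the matrix of a linear map -/
noncomputable def MM (b : Module.Basis (Fin N) ℝ L) (f : L →ₗ[ℝ] L) : Mat N := LinearMap.toMatrix b b f

theorem MM_mul (b : Module.Basis (Fin N) ℝ L) (f g : L →ₗ[ℝ] L) : MM b f * MM b g = MM b (f ∘ₗ g) :=
  (LinearMap.toMatrix_comp b b b f g).symm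

theorem MM_add (b : Module.Basis (Fin N) ℝ L) (f g : L →ₗ[ℝ] L) : MM b f + MM b g = MM b (f + g) :=
  (map_add (LinearMap.toMatrix b b) f g).symm

theorem MM_smul (b : Module.Basis (Fin N) ℝ L) (c : ℝ) (f : L →ₗ[ℝ] L) : c • MM b f = MM b (c • f) :=
  (map_smul (LinearMap.toMatrix b b) c f).symm

theorem MM_sum (b : Module.Basis (Fin N) ℝ L) {ι : Type} (s : Finset ι) (f : ι → L →ₗ[ℝ] L) :
    ∑ i ∈ s, MM b (f i) = MM b (∑ i ∈ s, f i) :=
  (map_sum (LinearMap.toMatrix b b) f s).symm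

theorem MM_zero (b : Module.Basis (Fin N) ℝ L) : MM b 0 = 0 := map_zero (LinearMap.toMatrix b b)

theorem MM_inj (b : Module.Basis (Fin N) ℝ L) {f g : L →ₗ[ℝ] L} (h : MM b f = MM b g) : f = g :=
  (LinearMap.toMatrix b b).injective h

theorem MM_ad (b : Module.Basis (Fin N) ℝ L) (x : L) : TT_to b x = MM b (LieAlgebra.ad ℝ L x : L →ₗ[ℝ] L) := rfl

theorem MM_vec (b : Module.Basis (Fin N) ℝ L) (f : L →ₗ[ℝ] L) (x : L) : MM b f *ᵥ (b.equivFun x) = b.equivFun (f x) := by
  have h := LinearMap.toMatrix_mulVec_repr b b f x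
  exact h

/-- A kernel condition for matrices. -/
theorem MM_ker (b : Module.Basis (Fin N) ℝ L) {f g : L →ₗ[ℝ] L} (h : ∀ x, f (g x) = 0 → g x = 0) (v : Fin N → ℝ)
    (hv : MM b f *ᵥ (MM b g *ᵥ v) = 0) : MM b g *ᵥ v = 0 := by
  obtain ⟨x, rfl⟩ := b.equivFun.surjective v
  rw [MM_vec, MM_vec] at hv
  rw [MM_vec, h x, map_zero]
  apply b.equivFun.injective
  rw [hv, map_zero]

/-- The bracket of a root vector of `e i - e j` with one of `e 0 - e l`, `l ≠ i`. -/
theorem TypA.br_zero (he : TypA A m e) {i j l : Fin m} (hij : i ≠ j) (hil : i ≠ l) {x y : L} (hy : y ∈ rsp A (e i.succ - e j.succ))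
    (hx : x ∈ rsp A (e 0 - e l.succ)) : ⁅y, x⁆ = 0 := by
  have key : ∀ k' l' : Fin (m + 1), e i.succ - e j.succ + (e 0 - e l.succ) ≠ e k' - e l' := by
    intro k' l' h5
    have h6 := he.four h5 0
    have h7 := he.four h5 i.succ
    have a1 : (i.succ : Fin (m + 1)) ≠ j.succ := fun h => hij (Fin.succ_injective m h)
    have a2 : (i.succ : Fin (m + 1)) ≠ l.succ := fun h => hil (Fin.succ_injective m h)
    have a3 : (0 : Fin (m + 1)) ≠ i.succ := (Fin.succ_ne_zero i).symm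
    have a4 : (0 : Fin (m + 1)) ≠ j.succ := (Fin.succ_ne_zero j).symm
    have a5 : (0 : Fin (m + 1)) ≠ l.succ := (Fin.succ_ne_zero l).symm
    simp only [Pi.single_apply, if_neg a1, if_neg a2, if_neg a3, if_neg a4, if_neg a5, if_neg a3.symm, if_true] at h6 h7
    by_cases b1 : (0 : Fin (m + 1)) = k'
    · have b2 : ¬ i.succ = k' := fun h => a3 (b1.trans h.symm)
      rw [if_neg b2] at h7
      split_ifs at h7 <;> norm_num at h7
    · rw [if_neg b1] at h6
      split_ifs at h6 <;> norm_num at h6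
  exact he.zero_of (rsp_lie hy hx) (fun h5 => key 0 0 (by rw [h5, sub_self])) fun k' l' _ => key k' l'

theorem br_mem {i j : Fin m} {x y : L} (hy : y ∈ rsp A (e i.succ - e j.succ)) (hx : x ∈ rsp A (e 0 - e i.succ)) :
    ⁅y, x⁆ ∈ rsp A (e 0 - e j.succ) := by
  have h1 := rsp_lie hy hx
  have h2 : e i.succ - e j.succ + (e 0 - e i.succ) = e 0 - e j.succ := by abel
  rwa [h2] at h1

/-- The values of `e` on `H`. -/
theorem val_H {H : A} (hH : ∀ j : Fin m, (e 0 - e j.succ) H = 1) (i : Fin (m + 1)) : e i H = if i = 0 then e 0 H else e 0 H - 1 := by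
  refine Fin.cases ?_ (fun j => ?_) i
  · rw [if_pos rfl]
  · rw [if_neg (Fin.succ_ne_zero j)]
    have h1 : e 0 H - e j.succ H = 1 := hH j
    linarith

/-- All fields of `VSrc` except `two` and `maut`. -/
structure Fields (G : Subgroup (GL (Fin N) ℝ)) (m d : ℕ) (H : Mat N) (E : Fin m → Mat N) (Y : Fin m → Fin m → Mat N) (W : Submodule ℝ (Mat N)) : Prop where
  hH : H ∈ lie G
  symm : Hᵀ = H
  cub : H * H * H = H
  EE : ∀ i j, E i * E j = if i = j then E i else 0
  sumE : ∑ i, E i = (1 / 2 : ℝ) • (H * H + H)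
  E0 : ∀ i, E i ≠ 0
  Yl : ∀ i j, i ≠ j → Y i j ∈ lie G
  YH : ∀ i j, i ≠ j → Y i j * H = H * Y i j
  YE : ∀ i j, i ≠ j → Y i j * ((1 / 2 : ℝ) • (H * H + H)) = E j * Y i j * E i
  Yinj : ∀ i j, i ≠ j → ∀ v, Y i j *ᵥ (E i *ᵥ v) = 0 → E i *ᵥ v = 0
  Wl : ∀ X ∈ W, X ∈ lie G
  WH : ∀ X ∈ W, X * H = H * X
  Wd : Module.finrank ℝ W = d
  Winj : ∀ X ∈ W, X ≠ 0 → ∃ i j, i ≠ j ∧ ∀ v, E j *ᵥ (X *ᵥ (E i *ᵥ v)) = 0 → E i *ᵥ v = 0

theorem TypA.fields (he : TypA A m e) (h : CartanBasis θ b) (hG : IsAdj b G) (hA : MaxFlat θ A) (hm : 2 ≤ m) {H : A}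
    (hH : ∀ j : Fin m, (e 0 - e j.succ) H = 1) {φ : Module.Dual ℝ A} (hφ : φ ∈ rootsL A) :
    ∃ (E : Fin m → Mat N) (Y : Fin m → Fin m → Mat N) (W : Submodule ℝ (Mat N)),
      Fields G m (Module.finrank ℝ (rsp A φ) * (m * (m - 1))) (TT_to b H) E Y W := by
  classical
  have hF : Module.Finite ℝ L := Module.Finite.of_basis b
  have hV := isFlat_map h hG hA
  have hlie : lie G = lie (autG b) := lie_eq' hG.aut (Pool.Agent.Helper96.SA.lie_sub h hG)
  have hmem : ∀ x : L, TT_to b x ∈ lie G := fun x => by rw [hlie]; exact TT_mem_to b x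
  obtain ⟨P, hP⟩ := he.exists_proj h hG hA
  have h0s : ∀ i : Fin m, (0 : Fin (m + 1)) ≠ i.succ := fun i => (Fin.succ_ne_zero i).symm
  have hss : ∀ i j : Fin m, i ≠ j → i.succ ≠ j.succ := fun i j hij h1 => hij (Fin.succ_injective m h1)
  have hroot : ∀ i j : Fin (m + 1), i ≠ j → ∃ y ∈ rsp A (e i - e j), y ≠ 0 := by
    intro i j hij
    obtain ⟨-, y, hy0, hy⟩ := (he.rts _).2 ⟨i, j, hij, rfl⟩
    exact ⟨y, hy, hy0⟩
  obtain ⟨y, hy⟩ : ∃ y : Fin m → Fin m → L, ∀ i j, i ≠ j → y i j ∈ rsp A (e i.succ - e j.succ) ∧ y i j ≠ 0 := by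
    have h1 : ∀ i j : Fin m, ∃ y : L, i ≠ j → y ∈ rsp A (e i.succ - e j.succ) ∧ y ≠ 0 := by
      intro i j
      by_cases hij : i = j
      · exact ⟨0, fun h2 => absurd hij h2⟩
      · obtain ⟨y, h2, h3⟩ := hroot i.succ j.succ (hss i j hij)
        exact ⟨y, fun _ => ⟨h2, h3⟩⟩
    choose y hy using h1
    exact ⟨y, hy⟩
  -- the action of `H`
  have hval := val_H hH
  have had : ∀ (ψ : Module.Dual ℝ A) (x : L), x ∈ rsp A ψ → ⁅(H : L), x⁆ = ψ H • x := fun ψ x hx => hx H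
  -- the space `W`
  let I : Type := {p : Fin m × Fin m // p.1 ≠ p.2}
  let Φ : ((p : I) → rsp A (e p.1.1.succ - e p.1.2.succ)) →ₗ[ℝ] L :=
    ∑ p : I, (rsp A (e p.1.1.succ - e p.1.2.succ)).subtype ∘ₗ LinearMap.proj p
  have hΦ : ∀ z, Φ z = ∑ p : I, (z p : L) := by
    intro z
    show (∑ p : I, (rsp A (e p.1.1.succ - e p.1.2.succ)).subtype ∘ₗ LinearMap.proj p) z = _
    rw [LinearMap.sum_apply]
    rfl
  -- the key computation
  have hact : ∀ z (q : I) (u : L), u ∈ rsp A (e 0 - e q.1.1.succ) → P 0 q.1.2.succ ⁅Φ z, u⁆ = ⁅(z q : L), u⁆ := by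
    intro z q u hu
    rw [hΦ, sum_lie, map_sum, Finset.sum_eq_single q]
    · have h1 := (hP 0 q.1.2.succ (h0s _)).2.2 0 q.1.2.succ (h0s _) _ (br_mem (z q).2 hu)
      rw [if_pos ⟨rfl, rfl⟩] at h1
      exact h1
    · intro p _ hpq
      by_cases h1 : p.1.1 = q.1.1
      · have h2 : p.1.2 ≠ q.1.2 := fun h3 => hpq (Subtype.ext (Prod.ext h1 h3))
        have hu' : u ∈ rsp A (e 0 - e p.1.1.succ) := by rw [h1]; exact hu
        rw [(hP 0 q.1.2.succ (h0s _)).2.2 0 p.1.2.succ (h0s _) _ (br_mem (z p).2 hu'), if_neg]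
        rintro ⟨-, h3⟩
        exact h2 (Fin.succ_injective m h3)
      · rw [he.br_zero p.2 h1 (z p).2 hu, map_zero]
    · intro h1
      exact absurd (Finset.mem_univ q) h1
  have hinj0 : ∀ z (q : I), z q ≠ 0 → ∀ u ∈ rsp A (e 0 - e q.1.1.succ), P 0 q.1.2.succ ⁅Φ z, u⁆ = 0 → u = 0 := by
    intro z q hq u hu h1
    rw [hact z q u hu] at h1
    exact he.inj1 h hG hA (h0s _) (hss _ _ q.2) (h0s _) (z q).2 (fun h2 => hq (Subtype.ext h2)) hu h1
  have hinjΦ : Function.Injective (TT_to b ∘ₗ Φ) := by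
    rw [injective_iff_map_eq_zero]
    intro z hz
    have h1 : Φ z = 0 := TT_inj_to h (by rw [map_zero]; exact hz)
    by_contra hne
    obtain ⟨q, hq⟩ : ∃ q, z q ≠ 0 := by
      by_contra hcon
      push Not at hcon
      exact hne (funext hcon)
    obtain ⟨u, hu, hu0⟩ := hroot 0 q.1.1.succ (h0s _)
    exact hu0 (hinj0 z q hq u hu (by rw [h1, zero_lie, map_zero]))
  refine ⟨fun i => MM b (P 0 i.succ), fun i j => TT_to b (y i j), LinearMap.range (TT_to b ∘ₗ Φ), ?_⟩
  have hPP : ∀ i j : Fin m, P 0 i.succ ∘ₗ P 0 j.succ = if i = j then P 0 i.succ else 0 := by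
    intro i j
    refine LinearMap.ext fun x => ?_
    rw [LinearMap.comp_apply, (hP 0 i.succ (h0s _)).2.2 0 j.succ (h0s _) _ ((hP 0 j.succ (h0s _)).1 x)]
    by_cases hij : i = j
    · rw [if_pos ⟨rfl, by rw [hij]⟩, if_pos hij, hij]
    · rw [if_neg (fun h1 => hij (Fin.succ_injective m h1.2.symm)), if_neg hij, LinearMap.zero_apply]
  have hsum : ∑ i : Fin m, P 0 i.succ = (1 / 2 : ℝ) • ((LieAlgebra.ad ℝ L (H : L) : L →ₗ[ℝ] L) ∘ₗ (LieAlgebra.ad ℝ L (H : L) : L →ₗ[ℝ] L) +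
      (LieAlgebra.ad ℝ L (H : L) : L →ₗ[ℝ] L)) := by
    refine he.ext_rsp h hG hA (fun x hx => ?_) fun k l hkl x hx => ?_
    · have h1 := had 0 x hx
      rw [LinearMap.zero_apply, zero_smul] at h1
      rw [LinearMap.sum_apply, Finset.sum_eq_zero fun i _ => (hP 0 i.succ (h0s _)).2.1 x hx]
      simp only [LinearMap.smul_apply, LinearMap.add_apply, LinearMap.comp_apply, LieAlgebra.ad_apply, h1, lie_zero, add_zero, smul_zero]
    · have h1 := had _ x hx
      rw [LinearMap.sub_apply, hval k, hval l] at h1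
      have h2 : ∀ i : Fin m, P 0 i.succ x = if k = 0 ∧ l = i.succ then x else 0 := fun i => (hP 0 i.succ (h0s _)).2.2 k l hkl x hx
      rw [LinearMap.sum_apply, Finset.sum_congr rfl fun i _ => h2 i]
      simp only [LinearMap.smul_apply, LinearMap.add_apply, LinearMap.comp_apply, LieAlgebra.ad_apply]
      rw [h1, lie_smul, h1]
      by_cases hk : k = 0
      · have hl : l ≠ 0 := fun h3 => hkl (hk.trans h3.symm)
        obtain ⟨l', rfl⟩ := Fin.exists_succ_eq.2 hl
        rw [Finset.sum_eq_single l', if_pos ⟨hk, rfl⟩, if_pos hk, if_neg hl]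
        · have h3 : e 0 H - (e 0 H - 1) = 1 := by ring
          rw [h3, one_smul, one_smul, ← two_smul ℝ x, smul_smul]
          norm_num
        · intro i _ hi
          rw [if_neg]
          rintro ⟨-, h3⟩
          exact hi (Fin.succ_injective m h3.symm)
        · intro h3
          exact absurd (Finset.mem_univ _) h3
      · rw [Finset.sum_eq_zero fun i _ => if_neg fun h3 => hk h3.1, if_neg hk]
        by_cases hl : l = 0
        · rw [if_pos hl]
          have h3 : e 0 H - 1 - e 0 H = -1 := by ring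
          rw [h3, smul_smul, ← add_smul]
          norm_num
        · rw [if_neg hl, sub_self]
          simp
  have hHH : (1 / 2 : ℝ) • (TT_to b H * TT_to b H + TT_to b H) = MM b (∑ i : Fin m, P 0 i.succ) := by
    rw [hsum, ← MM_smul, ← MM_add, ← MM_mul]
    rfl
  constructor
  · exact hmem _
  · exact hV.symm _ ⟨H, H.2, rfl⟩
  · -- cub
    rw [MM_ad, MM_mul, MM_mul]
    congr 1
    refine he.ext_rsp h hG hA (fun x hx => ?_) fun k l hkl x hx => ?_
    · have h1 := had 0 x hx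
      rw [LinearMap.zero_apply, zero_smul] at h1
      simp only [LinearMap.comp_apply, LieAlgebra.ad_apply, h1, lie_zero]
    · have h1 := had _ x hx
      rw [LinearMap.sub_apply, hval k, hval l] at h1
      simp only [LinearMap.comp_apply, LieAlgebra.ad_apply]
      rw [h1, lie_smul, h1, lie_smul, lie_smul, h1, smul_smul, smul_smul]
      congr 1
      by_cases hk : k = 0 <;> by_cases hl : l = 0
      · exact absurd (hk.trans hl.symm) hkl
      · rw [if_pos hk, if_neg hl]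
        ring
      · rw [if_neg hk, if_pos hl]
        ring
      · rw [if_neg hk, if_neg hl]
        ring
  · intro i j
    rw [MM_mul, hPP]
    split_ifs
    · rfl
    · exact MM_zero b
  · rw [hHH, MM_sum]
  · intro i h1
    obtain ⟨x, hx, hx0⟩ := hroot 0 i.succ (h0s _)
    have h2 : P 0 i.succ = 0 := MM_inj b (by rw [h1, MM_zero])
    have h3 := (hP 0 i.succ (h0s _)).2.2 0 i.succ (h0s _) x hx
    rw [if_pos ⟨rfl, rfl⟩, h2, LinearMap.zero_apply] at h3
    exact hx0 h3.symm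
  · intro i j _
    exact hmem _
  · intro i j hij
    rw [TT_comm_iff_to h, ← lie_skew, (hy i j hij).1 H, LinearMap.sub_apply, hval i.succ, hval j.succ, if_neg (Fin.succ_ne_zero i),
      if_neg (Fin.succ_ne_zero j), sub_self, zero_smul, neg_zero]
  · intro i j hij
    rw [hHH, MM_ad, MM_mul, MM_mul, MM_mul]
    congr 1
    refine he.ext_rsp h hG hA (fun x hx => ?_) fun k l hkl x hx => ?_
    · simp only [LinearMap.comp_apply, LinearMap.sum_apply]
      rw [Finset.sum_eq_zero fun i _ => (hP 0 i.succ (h0s _)).2.1 x hx, (hP 0 i.succ (h0s _)).2.1 x hx, map_zero, map_zero]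
    · have h2 : ∀ i : Fin m, P 0 i.succ x = if k = 0 ∧ l = i.succ then x else 0 := fun i => (hP 0 i.succ (h0s _)).2.2 k l hkl x hx
      simp only [LinearMap.comp_apply, LinearMap.sum_apply, h2]
      by_cases hk : k = 0
      · subst hk
        obtain ⟨l', rfl⟩ := Fin.exists_succ_eq.2 hkl.symm
        rw [Finset.sum_eq_single l', if_pos ⟨rfl, rfl⟩]
        · by_cases hl : l' = i
          · subst hl
            rw [if_pos ⟨rfl, rfl⟩]
            have h3 := (hP 0 j.succ (h0s _)).2.2 0 j.succ (h0s _) _ (br_mem (hy l' j hij).1 hx)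
            rw [if_pos ⟨rfl, rfl⟩] at h3
            exact h3.symm
          · rw [if_neg (fun h3 => hl (Fin.succ_injective m h3.2)), map_zero, map_zero]
            exact he.br_zero hij (Ne.symm hl) (hy i j hij).1 hx
        · intro i' _ hi
          rw [if_neg]
          rintro ⟨-, h3⟩
          exact hi (Fin.succ_injective m h3.symm)
        · intro h3
          exact absurd (Finset.mem_univ _) h3
      · rw [Finset.sum_eq_zero fun i _ => if_neg fun h3 => hk h3.1, if_neg (fun h3 => hk h3.1), map_zero, map_zero]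
  · intro i j hij
    refine MM_ker b fun x hx => ?_
    exact he.inj1 h hG hA (h0s _) (hss _ _ hij) (h0s _) (hy i j hij).1 (hy i j hij).2 ((hP 0 i.succ (h0s _)).1 x) hx
  · rintro _ ⟨z, rfl⟩
    exact hmem _
  · rintro _ ⟨z, rfl⟩
    show TT_to b (Φ z) * TT_to b H = TT_to b H * TT_to b (Φ z)
    rw [TT_comm_iff_to h, hΦ, sum_lie]
    refine Finset.sum_eq_zero fun p _ => ?_
    rw [← lie_skew, (z p).2 H, LinearMap.sub_apply, hval p.1.1.succ, hval p.1.2.succ, if_neg (Fin.succ_ne_zero _),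
      if_neg (Fin.succ_ne_zero _), sub_self, zero_smul, neg_zero]
  · rw [LinearMap.finrank_range_of_inj hinjΦ, Module.finrank_pi_fintype]
    have h1 : ∀ p : I, Module.finrank ℝ (rsp A (e p.1.1.succ - e p.1.2.succ)) = Module.finrank ℝ (rsp A φ) := by
      intro p
      obtain ⟨k, l, hkl, rfl⟩ := (he.rts φ).1 hφ
      exact he.dim_eq h hG hA hm (hss _ _ p.2) hkl
    rw [Finset.sum_congr rfl fun p _ => h1 p, Finset.sum_const, smul_eq_mul, mul_comm, Finset.card_univ]
    congr 1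
    have h2 : Fintype.card I = (Finset.univ : Finset (Fin m)).offDiag.card := by
      rw [Fintype.card_subtype]
      congr 1
      ext p
      simp [Finset.mem_offDiag]
    rw [h2, Finset.offDiag_card, Finset.card_univ, Fintype.card_fin, Nat.mul_sub_one]
  · rintro _ ⟨z, rfl⟩ hne
    obtain ⟨q, hq⟩ : ∃ q, z q ≠ 0 := by
      by_contra hcon
      push Not at hcon
      apply hne
      have h1 : z = 0 := funext hcon
      rw [h1, map_zero]
    refine ⟨q.1.1, q.1.2, q.2, fun v hv => ?_⟩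
    have hv' : MM b (P 0 q.1.2.succ ∘ₗ (LieAlgebra.ad ℝ L (Φ z) : L →ₗ[ℝ] L)) *ᵥ (MM b (P 0 q.1.1.succ) *ᵥ v) = 0 := by
      rw [← MM_mul, ← Matrix.mulVec_mulVec]
      exact hv
    exact MM_ker b (fun x hx => hinj0 z q hq _ ((hP 0 q.1.1.succ (h0s _)).1 x) hx) v hv'

end Pool.Agent.Helper77.LA
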