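import Pool.Agent.Helper77.LA.Base
import Pool.Agent.Helper43.TZ.SMau

/-!
# Project TZ, block LIE, part Mt (about 200 lines): Mautner property

PROOF. `T := TT_to b H`. Let `F = {X ∈ lie G | σ (exp (τ X)) ξ = ξ for all τ}` (as a set of matrices). (1) `F` is closed under sums, multiples and brackets: the stabiliser `St` of `ξ` in `G` is a closed subgroup of `G` (`ξ ∈ contVec σ`: `g ↦ σ g ξ` is continuous), so its image in `GL` is a closed subgroup `G'` (`G` is closed) and `F = lie G'`; `lie_submodule`, `lie_bracket` for `G'`.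
(2) `F` contains all `TT_to b x` with `[H, x] = -x` (hypothesis `h1`). (3) Let `x ∈ rsp A (e 0 - e j)`, `j ≠ 0` (so `[H, x] = x`), `x ≠ 0`. `y := θ x ∈ rsp A (e j - e 0)`, `[H, y] = -y`, `TT_to b y = -(TT_to b x)ᵀ` (`TT_transpose_to`). A positive multiple `Y = c (TT_to b x)ᵀ` has `[Y, Yᵀ] = T'`, `[T', Y] = 2 Y`
(`exists_sl2`-type computation: `coroot` for `X = (TT_to b x)ᵀ`: `X Xᵀ - Xᵀ X = tr(X Xᵀ) B`, `B` the matrix of the root of `X`, and `[B, X] = tr(B B) X`; `c² tr(X Xᵀ) tr(B B) = 2`). `Y ∈ F` by (2), so `Yᵀ ∈ F` by `maut_sl2`, so `TT_to b x ∈ F`.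
(4) So `F` contains `TT_to b x` for all `x` in the span `L_1` of the `rsp A (e 0 - e j)` and in `L_{-1}` (span of the `rsp A (e j - e 0)`). Let `I = {x | TT_to b x ∈ F}`, a subspace closed under brackets, `I' = ` the Lie subalgebra generated by `L_1 ∪ L_{-1}`, `I' ≤ I`. `I'` is an ideal: `[z, I'] ≤ I'` for `z ∈ L_{±1}` clear, and for `z` in a root space `rsp A (e i - e j)`, `i, j ≠ 0`, or in
`rsp A 0`: `[z, ·]` maps `L_1`, `L_{-1}` into themselves (`rsp_lie`, `zero_of`), so `ad z` maps `I'` into itself (`ad z` is a derivation; induction on the Lie span). By `ext_rsp`-type induction (the root spaces span `L`) `I'` is an ideal, `≠ 0`, so `I' = ⊤` (`LieAlgebra.IsSimple`; `m ≥ 1` gives a root). (5) So `σ (exp (ad x)) ξ = ξ` for all `x`, `ξ` is fixed by the closure of the group generated by the `exp (ad x)`, so by `G` (`hc`).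
-/

set_option autoImplicit false

open MeasureTheory Filter Topology Matrix

namespace Pool.Agent.Helper77.LA

open Pool.Agent.Helper96.SA Pool.Agent.Helper96.FR Pool.Agent.Helper96.TO Pool.Agent.Helper43.TA Pool.Agent.Helper43.TZ

variable {L : Type} [LieRing L] [LieAlgebra ℝ L] {N m : ℕ} {θ : L ≃ₗ⁅ℝ⁆ L} {b : Module.Basis (Fin N) ℝ L}
  {G : Subgroup (GL (Fin N) ℝ)} {A : Submodule ℝ L} {e : Fin (m + 1) → Module.Dual ℝ A}

/-- The stabiliser of a vector, as a subgroup of `GL`. -/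
private def stG (G : Subgroup (GL (Fin N) ℝ)) {K : Type} [NormedAddCommGroup K] [InnerProductSpace ℂ K] (σ : G →* (K ≃ₗᵢ[ℂ] K)) (ξ : K) :
    Subgroup (GL (Fin N) ℝ) := (fixG σ ξ).map G.subtype

private theorem mem_stG {K : Type} [NormedAddCommGroup K] [InnerProductSpace ℂ K] {σ : G →* (K ≃ₗᵢ[ℂ] K)} {ξ : K} {g : GL (Fin N) ℝ} :
    g ∈ stG G σ ξ ↔ ∃ hg : g ∈ G, σ ⟨g, hg⟩ ξ = ξ := by
  constructor
  · rintro ⟨g, hg, rfl⟩
    exact ⟨g.2, hg⟩
  · rintro ⟨hg, h⟩
    exact ⟨⟨g, hg⟩, h, rfl⟩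

private theorem isClosed_stG (hG : IsClosed (G : Set (GL (Fin N) ℝ))) {K : Type} [NormedAddCommGroup K] [InnerProductSpace ℂ K]
    {σ : G →* (K ≃ₗᵢ[ℂ] K)} {ξ : K} (hξ : ξ ∈ contVec σ) : IsClosed (stG G σ ξ : Set (GL (Fin N) ℝ)) := by
  have h1 : Continuous fun g => σ g ξ := by
    rw [continuous_iff_continuousAt]
    intro g
    have h2 : Tendsto (fun g' => g⁻¹ * g') (𝓝 g) (𝓝 (1 : G)) := by
      have h3 : Tendsto (fun g' => g⁻¹ * g') (𝓝 g) (𝓝 (g⁻¹ * g)) := (continuous_const_mul g⁻¹).tendsto g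
      rwa [inv_mul_cancel] at h3
    have h4 := ((σ g).continuous.tendsto _).comp ((mem_contVec.1 hξ).comp h2)
    refine h4.congr fun g' => ?_
    show (σ g * σ (g⁻¹ * g')) ξ = σ g' ξ
    rw [← map_mul, mul_inv_cancel_left]
  have h2 : IsClosed (fixG σ ξ : Set G) := isClosed_eq h1 continuous_const
  have h3 : (stG G σ ξ : Set (GL (Fin N) ℝ)) = Subtype.val '' (fixG σ ξ : Set G) := rfl
  rw [h3]
  exact hG.isClosedEmbedding_subtypeVal.isClosedMap _ h2

/-- A subspace closed under brackets which contains the root spaces of the `± (e 0 - e j)`. -/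
theorem TypA.gen (he : TypA A m e) [LieAlgebra.IsSimple ℝ L] (h : CartanBasis θ b) (hG : IsAdj b G) (hA : MaxFlat θ A) (hm : 1 ≤ m)
    (I : LieSubalgebra ℝ L) (h1 : ∀ j : Fin (m + 1), j ≠ 0 → rsp A (e 0 - e j) ≤ I.toSubmodule)
    (h2 : ∀ j : Fin (m + 1), j ≠ 0 → rsp A (e j - e 0) ≤ I.toSubmodule) : I = ⊤ := by
  obtain ⟨S, hS⟩ : ∃ S : Set L, S = {x | ∃ j : Fin (m + 1), j ≠ 0 ∧ (x ∈ rsp A (e 0 - e j) ∨ x ∈ rsp A (e j - e 0))} := ⟨_, rfl⟩
  obtain ⟨J, hJ⟩ : ∃ J : LieSubalgebra ℝ L, J = LieSubalgebra.lieSpan ℝ L S := ⟨_, rfl⟩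
  have hJI : J ≤ I := by
    rw [hJ, LieSubalgebra.lieSpan_le, hS]
    rintro x ⟨j, hj, hx | hx⟩
    · exact h1 j hj hx
    · exact h2 j hj hx
  have hSJ : ∀ x ∈ S, x ∈ J := fun x hx => by
    rw [hJ]
    exact LieSubalgebra.subset_lieSpan hx
  have hder : ∀ z : L, (∀ y ∈ S, ⁅z, y⁆ ∈ J) → ∀ y ∈ J, ⁅z, y⁆ ∈ J := by
    intro z hz y hy
    rw [hJ] at hy
    have : y ∈ J ∧ ⁅z, y⁆ ∈ J := by
      induction hy using LieSubalgebra.lieSpan_induction with
      | mem y hy => exact ⟨hSJ y hy, hz y hy⟩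
      | zero => exact ⟨J.zero_mem, by rw [lie_zero]; exact J.zero_mem⟩
      | smul c y _ ih => exact ⟨J.smul_mem c ih.1, by rw [lie_smul]; exact J.smul_mem c ih.2⟩
      | add y y' _ _ ih ih' => exact ⟨J.add_mem ih.1 ih'.1, by rw [lie_add]; exact J.add_mem ih.2 ih'.2⟩
      | lie y y' _ _ ih ih' => exact ⟨J.lie_mem ih.1 ih'.1, by
          rw [leibniz_lie]
          exact J.add_mem (J.lie_mem ih.2 ih'.1) (J.lie_mem ih.1 ih'.2)⟩
    exact this.2
  let K : Submodule ℝ L :=
    { carrier := {z | ∀ y ∈ J, ⁅z, y⁆ ∈ J}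
      add_mem' := by
        intro z z' hz hz' y hy
        rw [add_lie]
        exact J.add_mem (hz y hy) (hz' y hy)
      zero_mem' := by
        intro y _
        rw [zero_lie]
        exact J.zero_mem
      smul_mem' := by
        intro c z hz y hy
        rw [smul_lie]
        exact J.smul_mem c (hz y hy) }
  have hK : K = ⊤ := by
    refine he.span_top h hG hA K ?_ ?_
    · intro z hz
      refine hder z fun y hy => hSJ _ ?_
      rw [hS] at hy ⊢
      obtain ⟨j, hj, hy | hy⟩ := hy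
      · refine ⟨j, hj, Or.inl ?_⟩
        have := rsp_lie hz hy
        rwa [zero_add] at this
      · refine ⟨j, hj, Or.inr ?_⟩
        have := rsp_lie hz hy
        rwa [zero_add] at this
    · intro i j hij z hz
      by_cases hi : i = 0
      · refine fun y hy => J.lie_mem (hSJ _ ?_) hy
        rw [hS]
        exact ⟨j, fun hj => hij (hi.trans hj.symm), Or.inl (hi ▸ hz)⟩
      by_cases hj : j = 0
      · refine fun y hy => J.lie_mem (hSJ _ ?_) hy
        rw [hS]
        exact ⟨i, hi, Or.inr (hj ▸ hz)⟩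
      refine hder z fun y hy => ?_
      rw [hS] at hy
      obtain ⟨k, hk, hy | hy⟩ := hy
      · have h3 := rsp_lie hz hy
        by_cases hik : i = k
        · refine hSJ _ ?_
          rw [hS]
          refine ⟨j, hj, Or.inl ?_⟩
          have h4 : e i - e j + (e 0 - e k) = e 0 - e j := by
            rw [hik]
            abel
          rwa [h4] at h3
        · have key : ∀ p q : Fin (m + 1), e i - e j + (e 0 - e k) ≠ e p - e q := by
            intro p q h5
            have h6 := he.four h5 0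
            have h7 := he.four h5 i
            simp only [Pi.single_apply, if_neg (Ne.symm hi), if_neg (Ne.symm hj), if_neg (Ne.symm hk), if_neg hi, if_neg hij, if_neg hik, if_true] at h6 h7
            by_cases h8 : (0 : Fin (m + 1)) = p
            · rw [if_pos h8] at h6
              rw [if_neg (show i ≠ p from fun h9 => hi (h9.trans h8.symm))] at h7
              split_ifs at h7 <;> norm_num at h7
            · rw [if_neg h8] at h6
              split_ifs at h6 <;> norm_num at h6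
          rw [he.zero_of h3 (fun h5 => key 0 0 (by rw [h5, sub_self])) fun p q _ => key p q]
          exact J.zero_mem
      · have h3 := rsp_lie hz hy
        by_cases hjk : j = k
        · refine hSJ _ ?_
          rw [hS]
          refine ⟨i, hi, Or.inr ?_⟩
          have h4 : e i - e j + (e k - e 0) = e i - e 0 := by
            rw [hjk]
            abel
          rwa [h4] at h3
        · have key : ∀ p q : Fin (m + 1), e i - e j + (e k - e 0) ≠ e p - e q := by
            intro p q h5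
            have h6 := he.four h5 0
            have h7 := he.four h5 j
            simp only [Pi.single_apply, if_neg (Ne.symm hi), if_neg (Ne.symm hj), if_neg (Ne.symm hk), if_neg hj, if_neg (Ne.symm hij), if_neg hjk, if_true] at h6 h7
            by_cases h8 : (0 : Fin (m + 1)) = q
            · rw [if_pos h8] at h6
              rw [if_neg (show j ≠ q from fun h9 => hj (h9.trans h8.symm))] at h7
              split_ifs at h7 <;> norm_num at h7
            · rw [if_neg h8] at h6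
              split_ifs at h6 <;> norm_num at h6
          rw [he.zero_of h3 (fun h5 => key 0 0 (by rw [h5, sub_self])) fun p q _ => key p q]
          exact J.zero_mem
  have hid : ∀ z y : L, y ∈ J → ⁅z, y⁆ ∈ J := by
    intro z y hy
    have h3 : z ∈ K := by
      rw [hK]
      exact Submodule.mem_top
    exact h3 y hy
  let J' : LieIdeal ℝ L := { J.toSubmodule with lie_mem := fun {z y} hy => hid z y hy }
  have hJ' : ∀ x, x ∈ J' ↔ x ∈ J := fun x => Iff.rfl
  have h3 : J' = ⊤ := by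
    rcases LieAlgebra.IsSimple.eq_bot_or_eq_top J' with h4 | h4
    · exfalso
      obtain ⟨k, hk⟩ : ∃ k : Fin (m + 1), k ≠ 0 := ⟨⟨1, by omega⟩, fun h5 => by
        have := congrArg Fin.val h5
        simp at this⟩
      obtain ⟨-, y, hy0, hy⟩ := (he.rts _).2 ⟨0, k, Ne.symm hk, rfl⟩
      have h5 : y ∈ J' := by
        rw [hJ']
        refine hSJ _ ?_
        rw [hS]
        exact ⟨k, hk, Or.inl hy⟩
      rw [h4, LieSubmodule.mem_bot] at h5
      exact hy0 h5
    · exact h4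
  rw [eq_top_iff]
  intro x _
  refine hJI ?_
  rw [← hJ', h3]
  exact LieSubmodule.mem_top x

theorem TypA.maut [LieAlgebra.IsSimple ℝ L] (he : TypA A m e) (h : CartanBasis θ b) (hG : IsAdj b G)
    (hc : (G : Set (GL (Fin N) ℝ)) ⊆ closure (Subgroup.closure (Set.range fun x : L => ex (LinearMap.toMatrix b b (LieAlgebra.ad ℝ L x))) : Set (GL (Fin N) ℝ)))
    (hA : MaxFlat θ A) (hm : 2 ≤ m) {H : A} (hH : ∀ j : Fin m, (e 0 - e j.succ) H = 1)
    {K : Type} [NormedAddCommGroup K] [InnerProductSpace ℂ K] (σ : G →* (K ≃ₗᵢ[ℂ] K)) (ξ : K) (hξ : ξ ∈ contVec σ)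
    (h1 : ∀ (X : Mat N) (hX : X ∈ lie G), TT_to b H * X - X * TT_to b H = -X → ∀ τ : ℝ, σ ⟨ex (τ • X), mem_lie.1 hX τ⟩ ξ = ξ) (g : G) : σ g ξ = ξ := by
  have hSA := selfAdj_of_aut h hG
  have hV := isFlat_map h hG hA
  have hlie : lie G = lie (autG b) := lie_eq' hG.aut (Pool.Agent.Helper96.SA.lie_sub h hG)
  have hT : ∀ x : L, TT_to b x ∈ lie G := fun x => by
    rw [hlie]
    exact TT_mem_to b x
  obtain ⟨cm, -, hcm, htr, -, hwt⟩ := exists_cm h hG hA
  have hcl := isClosed_stG hG.closed hξ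
  obtain ⟨F, hF⟩ := lie_submodule hcl
  have hFm : ∀ X, X ∈ F ↔ ∀ τ : ℝ, ∃ hg : ex (τ • X) ∈ G, σ ⟨ex (τ • X), hg⟩ ξ = ξ := by
    intro X
    have h3 : X ∈ F ↔ X ∈ lie (stG G σ ξ) := by
      rw [← hF]
      rfl
    rw [h3, mem_lie]
    exact forall_congr' fun τ => mem_stG
  have hFb : ∀ X ∈ F, ∀ Y ∈ F, X * Y - Y * X ∈ F := by
    intro X hX Y hY
    have hX' : X ∈ (F : Set (Mat N)) := hX
    have hY' : Y ∈ (F : Set (Mat N)) := hY
    rw [hF] at hX' hY'
    have h3 := lie_bracket hcl hX' hY'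
    rw [← hF] at h3
    exact h3
  have hFg : ∀ (X : Mat N) (hX : X ∈ lie G), (∀ τ : ℝ, σ ⟨ex (τ • X), mem_lie.1 hX τ⟩ ξ = ξ) → X ∈ F := by
    intro X hX h3
    rw [hFm]
    exact fun τ => ⟨_, h3 τ⟩
  -- the contracted elements
  have hminus : ∀ x : L, ⁅(H : L), x⁆ = -x → TT_to b x ∈ F := by
    intro x hx
    refine hFg _ (hT x) (h1 _ (hT x) ?_)
    rw [← TT_lie_to, hx, map_neg]
  have hH' : ∀ j : Fin (m + 1), j ≠ 0 → (e 0 - e j) H = 1 := by
    intro j hj
    obtain ⟨j', rfl⟩ := Fin.exists_succ_eq.2 hj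
    exact hH j'
  have hplus : ∀ j : Fin (m + 1), j ≠ 0 → ∀ x ∈ rsp A (e 0 - e j), TT_to b x ∈ F := by
    intro j hj x hx
    by_cases hx0 : x = 0
    · rw [hx0, map_zero]
      exact F.zero_mem
    obtain ⟨X, hXd⟩ : ∃ X, X = TT_to b x := ⟨_, rfl⟩
    rw [← hXd]
    have hX0 : X ≠ 0 := fun h3 => hx0 (TT_inj_to h (by rw [← hXd, h3, map_zero]))
    have hXw : Wt G (A.map (TT_to b)) (cm (e 0 - e j)) X := hXd ▸ (hwt _ x).1 hx
    have hB0 : cm (e 0 - e j) ≠ 0 := by
      intro h3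
      have h4 := htr (e 0 - e j) H
      rw [h3, Matrix.zero_mul, Matrix.trace_zero, hH' j hj] at h4
      norm_num at h4
    have ht : ∀ X ∈ lie G, Xᵀ ∈ lie G := fun X hX => lie_transpose hSA hX
    have hco := coroot hSA.closed ht hV (max_map h hG hA) (hcm _) hXw
    have hZw := hXw.transpose ht hV.symm
    obtain ⟨t1, ht1⟩ : ∃ t1, t1 = (X * Xᵀ).trace := ⟨_, rfl⟩
    obtain ⟨B, hB⟩ : ∃ B, B = cm (e 0 - e j) := ⟨_, rfl⟩
    obtain ⟨t2, ht2⟩ : ∃ t2, t2 = (B * B).trace := ⟨_, rfl⟩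
    rw [← hB] at hXw hZw hco hB0
    rw [← ht1] at hco
    have hBV : B ∈ A.map (TT_to b) := hB ▸ hcm _
    have p1 : 0 < t1 := ht1 ▸ trace_mul_transpose_pos hX0
    have p2 : 0 < t2 := ht2 ▸ trace_self_pos (hV.symm _ hBV) hB0
    obtain ⟨c, hcd⟩ : ∃ c : ℝ, c = Real.sqrt (2 / (t2 * t1)) := ⟨_, rfl⟩
    have hc2 : c * c = 2 / (t2 * t1) := by
      rw [hcd]
      exact Real.mul_self_sqrt (by positivity)
    have hc0 : c ≠ 0 := by
      rw [hcd]
      exact (Real.sqrt_pos.2 (by positivity)).ne'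
    have hYl : c • Xᵀ ∈ lie G := (hZw.smul hSA.closed c).1
    have hYtl : (c • Xᵀ)ᵀ ∈ lie G := ht _ hYl
    have hTd : (c • Xᵀ) * (c • Xᵀ)ᵀ - (c • Xᵀ)ᵀ * (c • Xᵀ) = (-(c * c * t1)) • B := by
      rw [Matrix.transpose_smul, Matrix.transpose_transpose, Matrix.smul_mul, Matrix.mul_smul, Matrix.smul_mul, Matrix.mul_smul, smul_smul, smul_smul,
        ← smul_sub, ← neg_sub, hco, smul_neg, smul_smul, neg_smul]
    have hTl : (-(c * c * t1)) • B ∈ lie G := by
      rw [← hTd]
      exact lie_bracket hSA.closed hYl hYtl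
    have hTY : ((-(c * c * t1)) • B) * (c • Xᵀ) - (c • Xᵀ) * ((-(c * c * t1)) • B) = (2 : ℝ) • (c • Xᵀ) := by
      have h3 := hZw.2 B hBV
      rw [Matrix.neg_mul, Matrix.trace_neg, ← ht2] at h3
      rw [Matrix.smul_mul, Matrix.mul_smul, Matrix.smul_mul, Matrix.mul_smul, smul_smul, smul_smul, mul_comm c (-(c * c * t1)), ← smul_sub, h3, smul_smul, smul_smul]
      congr 1
      have h4 : c * c * (t2 * t1) = 2 := by
        rw [hc2]
        exact div_mul_cancel₀ _ (by positivity)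
      calc -(c * c * t1) * c * -t2 = c * c * (t2 * t1) * c := by ring
        _ = 2 * c := by rw [h4]
    have h5 : ∀ τ : ℝ, σ ⟨ex (τ • (c • Xᵀ)), mem_lie.1 hYl τ⟩ ξ = ξ := by
      refine h1 _ hYl ?_
      have h3 := hZw.2 (TT_to b H) ⟨H, H.2, rfl⟩
      rw [hB, Matrix.neg_mul, Matrix.trace_neg, htr, hH' j hj] at h3
      rw [Matrix.mul_smul, Matrix.smul_mul, ← smul_sub, h3, smul_smul, mul_neg_one, neg_smul]
    have h6 := maut_sl2 hTd.symm hTY hYl hYtl hTl σ hξ h5
    have h7 := hFg _ hYtl h6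
    rw [Matrix.transpose_smul, Matrix.transpose_transpose] at h7
    have h8 := F.smul_mem c⁻¹ h7
    rwa [smul_smul, inv_mul_cancel₀ hc0, one_smul] at h8
  -- the subalgebra
  let I : LieSubalgebra ℝ L :=
    { F.comap (TT_to b) with
      lie_mem' := by
        intro x y hx hy
        have hx' : TT_to b x ∈ F := hx
        have hy' : TT_to b y ∈ F := hy
        show TT_to b ⁅x, y⁆ ∈ F
        rw [TT_lie_to]
        exact hFb _ hx' _ hy' }
  have hI : I = ⊤ := by
    refine he.gen h hG hA (by omega) I (fun j hj x hx => hplus j hj x hx) fun j hj x hx => ?_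
    show TT_to b x ∈ F
    refine hminus x ?_
    have h3 := hx H
    have h4 : (e j - e 0) H = -1 := by
      rw [← neg_sub, LinearMap.neg_apply, hH' j hj]
    rw [h3, h4, neg_one_smul]
  have hall : ∀ x : L, ex (LinearMap.toMatrix b b (LieAlgebra.ad ℝ L x)) ∈ stG G σ ξ := by
    intro x
    have h3 : x ∈ I := by
      rw [hI]
      exact LieSubalgebra.mem_top x
    have h4 : TT_to b x ∈ F := h3
    rw [hFm] at h4
    have h5 := h4 1
    rw [one_smul] at h5
    exact mem_stG.2 h5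
  have h9 : (Subgroup.closure (Set.range fun x : L => ex (LinearMap.toMatrix b b (LieAlgebra.ad ℝ L x)))) ≤ stG G σ ξ := by
    rw [Subgroup.closure_le]
    rintro _ ⟨x, rfl⟩
    exact hall x
  have h10 := hcl.closure_subset_iff.2 h9 (hc g.2)
  obtain ⟨hg, h11⟩ := mem_stG.1 h10
  exact h11

end Pool.Agent.Helper77.LA
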