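import Pool.Agent.Helper77.LA.Root
import Pool.Agent.Helper43.TA.STwo
import Pool.Agent.Helper43.TZ.Src

/-!
# Project TZ, block LIE, part Two (about 200 lines): `TwoF (m - 1)` for the one-parameter group of `H`

`cm` from `exists_cm`, `V = A.map (TT_to b)`. `S = {cm (e i - e j) | i, j ≠ 0, i ≠ j}`.
PROOF (as in `simSl2_of_irr`, `Helper96/TO/Fin.lean`, whose text can be copied from `have hClo` on). `Clo G V S`: `sub` by `he.rts`; `neg` clear; `add`: `cm φ + cm ψ = cm (φ + ψ) ∈ Rt`, so `φ + ψ` is a root `e k - e l`; if `φ = e i - e j`, `ψ = e i' - e j'` with `i, j, i', j' ≠ 0` and `e i - e j + e i' - e j' = e k - e l` then affine independence (`he.ind`) gives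
`k, l ≠ 0` (the coefficient of `e 0`). `S` nonempty since `m ≥ 2`. `IrrS S`: `(cm (e i - e j) * cm (e j - e k)).trace ≠ 0` (`nonorth`) and `(cm α * cm (-α)).trace ≠ 0`, so a subset `A'` of `S` as in `IrrS` which contains `cm (e i - e j)` contains `cm (e j - e k)` for all `k ≠ 0, j`; so it contains everything: `(i, j) → (j, k) → (k, l)`, and `(i, j) → (j, l)`.
`hcen` as there (`exists_decomp`). So `s = span (gens G V S)` is simple (`isSim_gens`) and `LSub` (`lsub_gens`). The flat `span S ≤ s` has dimension `m - 1` (the `cm (e 1 - e j)`, `j = 2, …, m` are linearly independent by `he.ind` and `cm` injective; only `≥` is needed). `F = opg G (TT_to b H)` commutes with `s`: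
`(cm φ * TT_to b H).trace = φ H = 0` for `φ = e i - e j`, `i, j ≠ 0` (difference of `(e 0 - e j) H = 1`), so `TT_to b H` commutes with the generators, and `ex (τ • TT_to b H)` too (`twoF_of_sim` wants: `f * Y = Y * f`; see the use of `twoF_of_sim` in `Helper43/TA/SSl.lean`).
-/

set_option autoImplicit false

open Matrix

namespace Pool.Agent.Helper77.LA

open Pool.Agent.Helper96.SA Pool.Agent.Helper96.TO Pool.Agent.Helper43.TA Pool.Agent.Helper43.TZ

variable {L : Type} [LieRing L] [LieAlgebra ℝ L] {N m : ℕ} {θ : L ≃ₗ⁅ℝ⁆ L} {b : Module.Basis (Fin N) ℝ L}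
  {G : Subgroup (GL (Fin N) ℝ)} {A : Submodule ℝ L} {e : Fin (m + 1) → Module.Dual ℝ A}

/-- The roots which do not involve `e 0`, as matrices. -/
def SZ {A : Submodule ℝ L} (cm : Module.Dual ℝ A →ₗ[ℝ] Mat N) (e : Fin (m + 1) → Module.Dual ℝ A) : Set (Mat N) :=
  {C | ∃ i j : Fin m, i ≠ j ∧ C = cm (e i.succ - e j.succ)}

theorem TypA.rank_SZ {n : ℕ} {e : Fin (n + 2 + 1) → Module.Dual ℝ A} (he : TypA A (n + 2) e) {cm : Module.Dual ℝ A →ₗ[ℝ] Mat N}
    (hinj : Function.Injective cm) : n + 1 ≤ Module.finrank ℝ (Submodule.span ℝ (SZ cm e)) := by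
  let f : Fin (n + 1) → Submodule.span ℝ (SZ cm e) := fun j =>
    ⟨cm (e (0 : Fin (n + 2)).succ - e (j.succ : Fin (n + 2)).succ), Submodule.subset_span ⟨0, j.succ, (Fin.succ_ne_zero j).symm, rfl⟩⟩
  have hf : LinearIndependent ℝ f := by
    rw [Fintype.linearIndependent_iff]
    intro g hg
    have h1 : ∑ j, g j • (e (0 : Fin (n + 2)).succ - e (j.succ : Fin (n + 2)).succ) = 0 := by
      apply hinj
      rw [map_zero, map_sum]
      have h2 := congrArg (Submodule.subtype _) hg
      rw [map_sum, map_zero] at h2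
      rw [← h2]
      refine Finset.sum_congr rfl fun j _ => ?_
      rw [map_smul, map_smul]
      rfl
    obtain ⟨c, hc⟩ : ∃ c : ℝ, c = ∑ j, g j := ⟨_, rfl⟩
    have h3 : (Fin.cons 0 (Fin.cons c fun j => -g j) : Fin (n + 2 + 1) → ℝ) = 0 := by
      refine he.ind _ ?_ ?_
      · rw [Fin.sum_univ_succ, Fin.sum_univ_succ]
        simp only [Fin.cons_zero, Fin.cons_succ, Finset.sum_neg_distrib]
        rw [hc]
        ring
      · rw [Fin.sum_univ_succ, Fin.sum_univ_succ]
        simp only [Fin.cons_zero, Fin.cons_succ, zero_smul, zero_add]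
        have h6 : ∑ x : Fin (n + 1), (-g x) • e x.succ.succ = -∑ x : Fin (n + 1), g x • e x.succ.succ := by
          rw [← Finset.sum_neg_distrib]
          refine Finset.sum_congr rfl fun x _ => LinearMap.ext fun y => ?_
          show -g x * e x.succ.succ y = -(g x * e x.succ.succ y)
          ring
        rw [← h1, hc]
        refine (congrArg₂ (· + ·) (Finset.sum_smul) h6).trans ?_
        simp only [smul_sub, Finset.sum_sub_distrib]
        abel
    intro j
    have h4 := congrFun h3 (j.succ : Fin (n + 2)).succ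
    rw [Fin.cons_succ, Fin.cons_succ, Pi.zero_apply, neg_eq_zero] at h4
    exact h4
  have h5 := hf.fintype_card_le_finrank
  rwa [Fintype.card_fin] at h5

theorem TypA.two (he : TypA A m e) (h : CartanBasis θ b) (hG : IsAdj b G) (hA : MaxFlat θ A) (hm : 2 ≤ m) {H : A}
    (hH : ∀ j : Fin m, (e 0 - e j.succ) H = 1) : TwoF (m - 1) (opg G (TT_to b H)) := by
  have hSA := selfAdj_of_aut h hG
  have hV := isFlat_map h hG hA
  have hmax := max_map h hG hA
  have ht : ∀ X ∈ lie G, Xᵀ ∈ lie G := fun X hX => lie_transpose hSA hX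
  obtain ⟨cm, hinj, hcm, htr, hrt, hwt⟩ := exists_cm h hG hA
  obtain ⟨V, hVd⟩ : ∃ V : Submodule ℝ (Mat N), V = A.map (TT_to b) := ⟨_, rfl⟩
  obtain ⟨S, hS⟩ : ∃ S : Set (Mat N), S = SZ cm e := ⟨_, rfl⟩
  have hmemS : ∀ i j : Fin m, i ≠ j → cm (e i.succ - e j.succ) ∈ S := by
    intro i j hij
    rw [hS]
    exact ⟨i, j, hij, rfl⟩
  have hroot : ∀ i j : Fin m, i ≠ j → cm (e i.succ - e j.succ) ∈ Rt G (A.map (TT_to b)) := fun i j hij =>
    (hrt _).1 ((he.rts _).2 ⟨i.succ, j.succ, fun h1 => hij (Fin.succ_injective _ h1), rfl⟩)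
  have hnon := @TypA.nonorth L _ _ N m θ b G A e he h hG hA cm hcm hrt
  rw [← hVd] at hV hmax hrt hroot
  have hTV : (TT_to b (H : L)) ∈ V := by
    rw [hVd]
    exact ⟨H, H.2, rfl⟩
  have hSR : S ⊆ Rt G V := by
    rw [hS]
    rintro C ⟨i, j, hij, rfl⟩
    exact hroot i j hij
  have hSV : ∀ C ∈ S, C ∈ V := fun C hC => (hSR hC).1
  have hSt : ∀ C ∈ S, (C * TT_to b (H : L)).trace = 0 := by
    rw [hS]
    rintro C ⟨i, j, hij, rfl⟩
    rw [htr]
    have h1 := hH i
    have h2 := hH j
    rw [LinearMap.sub_apply] at h1 h2 ⊢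
    linarith
  have hClo : Clo G V S := by
    refine ⟨hSR, fun C hC => ?_, fun C hC D hD h3 => ?_⟩
    · rw [hS] at hC ⊢
      obtain ⟨i, j, hij, rfl⟩ := hC
      refine ⟨j, i, hij.symm, ?_⟩
      rw [← map_neg]
      congr 1
      abel
    · rw [hS] at hC hD ⊢
      obtain ⟨i, j, hij, rfl⟩ := hC
      obtain ⟨i', j', hij', rfl⟩ := hD
      rw [← map_add] at h3 ⊢
      rw [← hrt, he.rts] at h3
      obtain ⟨k, l, hkl, h4⟩ := h3
      have h5 := he.four h4 0
      rw [h4]
      have z : ∀ i : Fin m, (Pi.single i.succ 1 : Fin (m + 1) → ℝ) 0 = 0 := fun i =>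
        Pi.single_eq_of_ne (Fin.succ_ne_zero i).symm _
      rw [z, z, z, z] at h5
      simp only [sub_zero, add_zero] at h5
      rcases Fin.eq_zero_or_eq_succ k with rfl | ⟨k', rfl⟩
      · rcases Fin.eq_zero_or_eq_succ l with rfl | ⟨l', rfl⟩
        · exact absurd rfl hkl
        · rw [z, Pi.single_eq_same] at h5
          norm_num at h5
      · rcases Fin.eq_zero_or_eq_succ l with rfl | ⟨l', rfl⟩
        · rw [z, Pi.single_eq_same] at h5
          norm_num at h5
        · exact ⟨k', l', fun h6 => hkl (by rw [h6]), rfl⟩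
  have hSne : S.Nonempty := ⟨_, hmemS ⟨0, by omega⟩ ⟨1, by omega⟩ (by
    intro h1
    have h2 := congrArg Fin.val h1
    exact absurd h2 (by norm_num))⟩
  have hSirr : IrrS S := by
    intro A' hA1 hA2 hA3
    have step : ∀ i j k : Fin m, i ≠ j → j ≠ k → cm (e i.succ - e j.succ) ∈ A' → cm (e j.succ - e k.succ) ∈ A' := by
      intro i j k hij hjk hC
      by_contra hD
      have h1 := hA3 _ hC _ (hmemS j k hjk) hD
      by_cases hik : i = k
      · subst hik
        have h2 : cm (e j.succ - e i.succ) = -cm (e i.succ - e j.succ) := by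
          rw [← map_neg]
          congr 1
          abel
        rw [h2, Matrix.mul_neg, Matrix.trace_neg, neg_eq_zero] at h1
        have h3 := hroot i j hij
        exact absurd h1 (trace_self_pos (hV.symm _ h3.1) h3.2.1).ne'
      · exact hnon (fun h4 => hij (Fin.succ_injective _ h4)) (fun h4 => hjk (Fin.succ_injective _ h4))
          (fun h4 => hik (Fin.succ_injective _ h4)) h1
    refine Set.Subset.antisymm hA1 fun D hD => ?_
    obtain ⟨C, hC⟩ := hA2
    have hC' := hA1 hC
    rw [hS] at hC' hD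
    obtain ⟨i, j, hij, rfl⟩ := hC'
    obtain ⟨k, l, hkl, rfl⟩ := hD
    by_cases hjk : j = k
    · subst hjk
      exact step i j l hij hkl hC
    · exact step j k l hjk hkl (step i j k hij hjk hC)
  have hspanV : Submodule.span ℝ S ≤ V := Submodule.span_le.2 hSV
  have hcen : ∀ H ∈ V, ∃ H₀ ∈ Submodule.span ℝ S, ∀ C ∈ S, (C * (H - H₀)).trace = 0 := by
    intro H hH
    obtain ⟨H₀, hH₀, h3⟩ := exists_decomp (Submodule.span ℝ S) H
    refine ⟨H₀, hH₀, fun C hC => ?_⟩
    have h4 := h3 C (Submodule.subset_span hC)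
    rwa [hV.symm _ (V.sub_mem hH (hspanV hH₀))] at h4
  have hsim := isSim_gens hSA.closed ht hV hmax hClo hSne hSirr hcen
  have hsub := lsub_gens hSA.closed ht hV hClo
  have hroot : ∀ C ∈ S, C ∈ Submodule.span ℝ (gens G V S) := by
    intro C hC
    obtain ⟨-, -, Y, hY0, hY⟩ := hSR hC
    have h1 := hsub.brk Y (Submodule.subset_span (Or.inl ⟨C, hC, hY⟩)) Yᵀ
      (hsub.tr Y (Submodule.subset_span (Or.inl ⟨C, hC, hY⟩)))
    rw [coroot hSA.closed ht hV hmax (hSV C hC) hY] at h1
    have h2 := (Submodule.span ℝ (gens G V S)).smul_mem (Y * Yᵀ).trace⁻¹ h1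
    rwa [smul_smul, inv_mul_cancel₀ (trace_mul_transpose_pos hY0).ne', one_smul] at h2
  have hflat : FlatIn (Submodule.span ℝ (gens G V S)) (Submodule.span ℝ S) :=
    ⟨Submodule.span_le.2 hroot, fun X hX => hV.symm _ (hspanV hX), fun X hX Y hY => hV.comm _ (hspanV hX) _ (hspanV hY)⟩
  refine twoF_of_sim hSA.closed hsub hsim ?_ hflat ?_
  · -- the one-parameter group commutes with the simple algebra
    have hg : ∀ C ∈ S, ∀ Y D, D = C ∨ D = -C → Wt G V D Y → TT_to b (H : L) * Y = Y * TT_to b (H : L) := by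
      intro C hC Y D hD hY
      rw [← sub_eq_zero, hY.2 _ hTV]
      have h3 : (D * TT_to b (H : L)).trace = 0 := by
        rcases hD with rfl | rfl
        · exact hSt _ hC
        · rw [Matrix.neg_mul, Matrix.trace_neg, hSt C hC, neg_zero]
      rw [h3, zero_smul]
    have hcomm : ∀ Y ∈ Submodule.span ℝ (gens G V S), TT_to b (H : L) * Y = Y * TT_to b (H : L) := by
      intro Y hY
      refine Submodule.span_induction (p := fun Y _ => TT_to b (H : L) * Y = Y * TT_to b (H : L)) ?_ ?_ ?_ ?_ hY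
      · rintro Y (⟨C, hC, hY⟩ | ⟨C, hC, Y, Z, hY, hZ, rfl⟩)
        · exact hg C hC Y C (Or.inl rfl) hY
        · have h3 := hg C hC Y C (Or.inl rfl) hY
          have h4 := hg C hC Z (-C) (Or.inr rfl) hZ
          have k1 : TT_to b (H : L) * (Y * Z) = Y * Z * TT_to b (H : L) := by
            rw [← Matrix.mul_assoc, h3, Matrix.mul_assoc, h4, Matrix.mul_assoc]
          have k2 : TT_to b (H : L) * (Z * Y) = Z * Y * TT_to b (H : L) := by
            rw [← Matrix.mul_assoc, h4, Matrix.mul_assoc, h3, Matrix.mul_assoc]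
          rw [Matrix.mul_sub, Matrix.sub_mul, k1, k2]
      · rw [Matrix.mul_zero, Matrix.zero_mul]
      · intro X Y _ _ h1 h2
        rw [Matrix.mul_add, Matrix.add_mul, h1, h2]
      · intro c X _ h1
        rw [Matrix.mul_smul, Matrix.smul_mul, h1]
    rintro f ⟨τ, hf⟩ Y hY
    rw [hf, ex_coe]
    have h1 : Commute (τ • TT_to b (H : L)) Y := by
      change τ • TT_to b (H : L) * Y = Y * τ • TT_to b (H : L)
      rw [Matrix.smul_mul, hcomm Y hY, Matrix.mul_smul]
    exact h1.exp_left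
  · obtain ⟨n, rfl⟩ : ∃ n, m = n + 2 := ⟨m - 2, by omega⟩
    rw [hS]
    have := he.rank_SZ hinj
    exact this

end Pool.Agent.Helper77.LA
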