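import Pool.Agent.Helper96.TO.Fin

/-!
# Project TZ (MP_0f6f3f_an), block LIE, part Base: simple Lie algebras of type `A`, definitions and basic facts

`TypA A m e`: the restricted roots are the `e i - e j`, `i ≠ j`, where `e 0, …, e m` are affinely independent. `rsp A φ`: the root space (`rsp A 0` the centraliser of `A`). `L` is spanned by the root spaces (`ext_rsp`);
`exists_proj`: the projections on the root spaces. `exists_cm`: the functionals as matrices, with `Wt`, `Rt` of `Helper96/TO`.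
-/

set_option autoImplicit false

open Matrix

namespace Pool.Agent.Helper77.LA

open Pool.Agent.Helper96.SA Pool.Agent.Helper96.TO

variable {L : Type} [LieRing L] [LieAlgebra ℝ L] {N m : ℕ} {θ : L ≃ₗ⁅ℝ⁆ L} {b : Module.Basis (Fin N) ℝ L}
  {G : Subgroup (GL (Fin N) ℝ)} {A : Submodule ℝ L} {e : Fin (m + 1) → Module.Dual ℝ A}

/-- The root space of `φ`. -/
def rsp (A : Submodule ℝ L) (φ : Module.Dual ℝ A) : Submodule ℝ L where
  carrier := {x | ∀ h : A, ⁅(h : L), x⁆ = φ h • x}
  add_mem' := by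
    intro x y hx hy h
    rw [lie_add, hx h, hy h, smul_add]
  zero_mem' := by
    intro h
    rw [lie_zero, smul_zero]
  smul_mem' := by
    intro c x hx h
    rw [lie_smul, hx h, smul_comm]

theorem mem_rsp {φ : Module.Dual ℝ A} {x : L} : x ∈ rsp A φ ↔ ∀ h : A, ⁅(h : L), x⁆ = φ h • x := Iff.rfl

/-- The restricted roots are the differences of `m + 1` affinely independent functionals. -/
structure TypA (A : Submodule ℝ L) (m : ℕ) (e : Fin (m + 1) → Module.Dual ℝ A) : Prop where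
  ind : ∀ c : Fin (m + 1) → ℝ, ∑ i, c i = 0 → ∑ i, c i • e i = 0 → c = 0
  rts : ∀ φ, φ ∈ rootsL A ↔ ∃ i j, i ≠ j ∧ φ = e i - e j

theorem TypA.neg (he : TypA A m e) : TypA A m (fun i => -e i) := by
  refine ⟨fun c h1 h2 => he.ind c h1 ?_, fun φ => ?_⟩
  · simp only [smul_neg, Finset.sum_neg_distrib, neg_eq_zero] at h2
    exact h2
  · rw [he.rts]
    constructor
    · rintro ⟨i, j, hij, rfl⟩
      exact ⟨j, i, hij.symm, by abel⟩
    · rintro ⟨i, j, hij, rfl⟩
      exact ⟨j, i, hij.symm, by abel⟩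

theorem rsp_lie {φ ψ : Module.Dual ℝ A} {x y : L} (hx : x ∈ rsp A φ) (hy : y ∈ rsp A ψ) : ⁅x, y⁆ ∈ rsp A (φ + ψ) := by
  intro k
  rw [leibniz_lie, hx k, hy k, smul_lie, lie_smul, LinearMap.add_apply, add_smul]

theorem TypA.zero_of (he : TypA A m e) {φ : Module.Dual ℝ A} {x : L} (hx : x ∈ rsp A φ) (h0 : φ ≠ 0)
    (h1 : ∀ i j, i ≠ j → φ ≠ e i - e j) : x = 0 := by
  by_contra hx0
  obtain ⟨i, j, hij, hφ⟩ := (he.rts φ).1 ⟨h0, x, hx0, hx⟩
  exact h1 i j hij hφ

/-- Affine independence, by the values. -/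
theorem TypA.ind' (he : TypA A m e) (c : Fin (m + 1) → ℝ) (h1 : ∑ i, c i = 0) (h2 : ∀ x : A, ∑ i, c i * e i x = 0) : c = 0 := by
  refine he.ind c h1 (LinearMap.ext fun x => ?_)
  rw [LinearMap.sum_apply]
  exact h2 x

/-- Affine independence. -/
theorem TypA.four (he : TypA A m e) {p q r s k l : Fin (m + 1)} (h : e p - e q + (e r - e s) = e k - e l) (t : Fin (m + 1)) :
    (((Pi.single p 1 : Fin (m + 1) → ℝ) t - (Pi.single q 1 : Fin (m + 1) → ℝ) t) +
      ((Pi.single r 1 : Fin (m + 1) → ℝ) t - (Pi.single s 1 : Fin (m + 1) → ℝ) t)) =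
      (Pi.single k 1 : Fin (m + 1) → ℝ) t - (Pi.single l 1 : Fin (m + 1) → ℝ) t := by
  have h2 := he.ind' (Pi.single p 1 - Pi.single q 1 + (Pi.single r 1 - Pi.single s 1) - (Pi.single k 1 - Pi.single l 1)) (by
    simp only [Pi.sub_apply, Pi.add_apply, Finset.sum_sub_distrib, Finset.sum_add_distrib, Pi.single_apply,
      Finset.sum_ite_eq', Finset.mem_univ, if_true]
    ring) (by
    intro x
    simp only [Pi.sub_apply, Pi.add_apply, sub_mul, add_mul, Finset.sum_sub_distrib, Finset.sum_add_distrib, Pi.single_apply, ite_mul,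
      one_mul, zero_mul, Finset.sum_ite_eq', Finset.mem_univ, if_true]
    have h3 : e p x - e q x + (e r x - e s x) = e k x - e l x := LinearMap.congr_fun h x
    rw [h3, sub_self])
  exact sub_eq_zero.1 (congrFun h2 t)

/-- Only the zero vector of `A` is killed by all roots. -/
theorem sep (h : CartanBasis θ b) (hG : IsAdj b G) (hA : MaxFlat θ A) {x : A} (hx : ∀ φ ∈ rootsL A, φ x = 0) : x = 0 := by
  have hSA := selfAdj_of_aut h hG
  have hV := isFlat_map h hG hA
  have h1 : TT_to b (x : L) = 0 := by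
    refine rt_span hSA.closed hSA.semi hV ⟨x, x.2, rfl⟩ fun C hC => ?_
    have h2 := (droots_iff hV.symm ⟨C, hC.1⟩).2 hC
    have h3 := (dualE_roots h hG A (fn (A.map (TT_to b)) ⟨C, hC.1⟩)).2 h2
    have h4 := hx _ h3
    rw [Matrix.trace_mul_comm]
    exact h4
  exact Subtype.ext (TT_inj_to h (by rw [h1]; exact (map_zero _).symm))

/-- The functionals on `A` as matrices. -/
theorem exists_cm (h : CartanBasis θ b) (hG : IsAdj b G) (hA : MaxFlat θ A) :
    ∃ cm : Module.Dual ℝ A →ₗ[ℝ] Mat N, Function.Injective cm ∧ (∀ φ, cm φ ∈ A.map (TT_to b)) ∧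
      (∀ φ (x : A), (cm φ * TT_to b x).trace = φ x) ∧ (∀ φ, φ ∈ rootsL A ↔ cm φ ∈ Rt G (A.map (TT_to b))) ∧
      ∀ φ x, x ∈ rsp A φ ↔ Wt G (A.map (TT_to b)) (cm φ) (TT_to b x) := by
  have hV := isFlat_map h hG hA
  have hlie : lie G = lie (autG b) := lie_eq' hG.aut (Pool.Agent.Helper96.SA.lie_sub h hG)
  let F : A.map (TT_to b) ≃ₗ[ℝ] Module.Dual ℝ (A.map (TT_to b)) :=
    LinearEquiv.ofBijective (fn (A.map (TT_to b))) ⟨fn_injective hV.symm, fn_surjective hV.symm⟩
  let cm : Module.Dual ℝ A →ₗ[ℝ] Mat N := (A.map (TT_to b)).subtype ∘ₗ F.symm.toLinearMap ∘ₗ (dualE h A).symm.toLinearMap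
  have hcm : ∀ φ, cm φ = ((F.symm ((dualE h A).symm φ) : A.map (TT_to b)) : Mat N) := fun φ => rfl
  have htr : ∀ φ (x : A), (cm φ * TT_to b x).trace = φ x := by
    intro φ x
    have h1 : F (F.symm ((dualE h A).symm φ)) = (dualE h A).symm φ := F.apply_symm_apply _
    have h2 : (F (F.symm ((dualE h A).symm φ))) ⟨TT_to b x, x, x.2, rfl⟩ = (cm φ * TT_to b x).trace := rfl
    rw [← h2, h1]
    have h3 : dualE h A ((dualE h A).symm φ) x = φ x := by rw [LinearEquiv.apply_symm_apply]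
    exact h3
  refine ⟨cm, ?_, fun φ => (F.symm ((dualE h A).symm φ)).2, htr, fun φ => ?_, fun φ x => ?_⟩
  · intro φ ψ hφψ
    rw [hcm, hcm] at hφψ
    exact (dualE h A).symm.injective (F.symm.injective (Subtype.ext hφψ))
  · rw [hcm, ← droots_iff hV.symm, ← dualE_roots h hG]
    have h1 : fn (A.map (TT_to b)) (F.symm ((dualE h A).symm φ)) = (dualE h A).symm φ := F.apply_symm_apply _
    rw [h1, LinearEquiv.apply_symm_apply]
  · constructor
    · intro hx
      refine ⟨by rw [hlie]; exact TT_mem_to b x, ?_⟩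
      rintro _ ⟨y, hy, rfl⟩
      rw [← TT_lie_to, hx ⟨y, hy⟩, map_smul, htr φ ⟨y, hy⟩]
    · intro hx y
      have h1 := hx.2 (TT_to b y) ⟨y, y.2, rfl⟩
      rw [← TT_lie_to, htr φ y, ← map_smul] at h1
      exact TT_inj_to h h1

theorem exists_typA (h : CartanBasis θ b) (hG : IsAdj b G) (hA : MaxFlat θ A) (h2 : 2 ≤ Module.finrank ℝ A)
    (hT : IsTypeA (rootsL A)) : ∃ e : Fin (Module.finrank ℝ A + 1) → Module.Dual ℝ A, TypA A (Module.finrank ℝ A) e := by
  classical
  have hF : Module.Finite ℝ L := Module.Finite.of_basis b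
  obtain ⟨S, hS, hR⟩ := hT
  have hfin : Finite S := finite_of_fin_dim_affineIndependent ℝ hS
  have : Fintype S := Fintype.ofFinite S
  -- `S` is not empty
  have hne : S.Nonempty := by
    by_contra hcon
    rw [Set.not_nonempty_iff_eq_empty] at hcon
    have h1 : Subsingleton A := ⟨fun x y => by
      rw [← sub_eq_zero]
      refine sep h hG hA fun φ hφ => ?_
      rw [hR, hcon] at hφ
      obtain ⟨a, ha, -⟩ := hφ
      exact absurd ha (Set.notMem_empty a)⟩
    rw [Module.finrank_zero_of_subsingleton] at h2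
    omega
  obtain ⟨s0, hs0⟩ := hne
  have hle : Fintype.card S ≤ Module.finrank ℝ A + 1 := by
    refine hS.card_le_finrank_succ.trans ?_
    rw [← Subspace.dual_finrank_eq (K := ℝ) (V := A)]
    exact Nat.succ_le_succ (Submodule.finrank_le _)
  have hge : Module.finrank ℝ A + 1 ≤ Fintype.card S := by
    let T : Type := {s : S // s ≠ ⟨s0, hs0⟩}
    have hT : Fintype.card T + 1 = Fintype.card S := by
      have h1 : Fintype.card T = Fintype.card S - 1 := Set.card_ne_eq (⟨s0, hs0⟩ : S)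
      have h2 : 0 < Fintype.card S := Fintype.card_pos_iff.2 ⟨⟨s0, hs0⟩⟩
      omega
    let f : A →ₗ[ℝ] (T → ℝ) := LinearMap.pi fun t => ((t.1 : Module.Dual ℝ A) - s0)
    have hf : Function.Injective f := by
      rw [injective_iff_map_eq_zero]
      intro x hx
      have h1 : ∀ s : S, (s : Module.Dual ℝ A) x = s0 x := by
        intro s
        by_cases hs : s = ⟨s0, hs0⟩
        · rw [hs]
        · have h2 : f x ⟨s, hs⟩ = 0 := by rw [hx]; rfl
          have h3 : (s : Module.Dual ℝ A) x - s0 x = 0 := h2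
          exact sub_eq_zero.1 h3
      refine sep h hG hA fun φ hφ => ?_
      rw [hR] at hφ
      obtain ⟨a, ha, c, hc, -, rfl⟩ := hφ
      rw [LinearMap.sub_apply, h1 ⟨a, ha⟩, h1 ⟨c, hc⟩, sub_self]
    have h3 := LinearMap.finrank_le_finrank_of_injective hf
    rw [Module.finrank_pi] at h3
    omega
  have hcard : Fintype.card S = Module.finrank ℝ A + 1 := le_antisymm hle hge
  let σ : Fin (Module.finrank ℝ A + 1) ≃ S := (Fintype.equivFinOfCardEq hcard).symm
  refine ⟨fun i => (σ i : Module.Dual ℝ A), fun c h1 h3 => ?_, fun φ => ?_⟩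
  · have h4 := affineIndependent_iff.1 (hS.comp_embedding σ.toEmbedding) Finset.univ c h1 h3
    funext i
    exact h4 i (Finset.mem_univ i)
  · rw [hR]
    constructor
    · rintro ⟨a, ha, c, hc, hac, rfl⟩
      refine ⟨σ.symm ⟨a, ha⟩, σ.symm ⟨c, hc⟩, fun h4 => hac ?_, ?_⟩
      · have h5 := σ.symm.injective h4
        exact congrArg Subtype.val h5
      · rw [Equiv.apply_symm_apply, Equiv.apply_symm_apply]
    · rintro ⟨i, j, hij, rfl⟩
      exact ⟨σ i, (σ i).2, σ j, (σ j).2, fun h4 => hij (σ.injective (Subtype.ext h4)), rfl⟩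

theorem TypA.exists_H (he : TypA A m e) (h : CartanBasis θ b) (hG : IsAdj b G) (hA : MaxFlat θ A) (hm : Module.finrank ℝ A = m) :
    ∃ H : A, ∀ j : Fin m, (e 0 - e j.succ) H = 1 := by
  have hF : Module.Finite ℝ L := Module.Finite.of_basis b
  let f : A →ₗ[ℝ] (Fin m → ℝ) := LinearMap.pi fun j => e 0 - e j.succ
  have hf : Function.Injective f := by
    rw [injective_iff_map_eq_zero]
    intro x hx
    have h1 : ∀ i, e i x = e 0 x := by
      intro i
      refine Fin.cases rfl (fun j => ?_) i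
      have h2 : f x j = 0 := by rw [hx]; rfl
      have h3 : e 0 x - e j.succ x = 0 := h2
      exact (sub_eq_zero.1 h3).symm
    refine sep h hG hA fun φ hφ => ?_
    obtain ⟨i, j, -, rfl⟩ := (he.rts φ).1 hφ
    rw [LinearMap.sub_apply, h1 i, h1 j, sub_self]
  have hs : Function.Surjective f := by
    refine (LinearMap.injective_iff_surjective_of_finrank_eq_finrank ?_).1 hf
    rw [hm, Module.finrank_pi, Fintype.card_fin]
  obtain ⟨H, hH⟩ := hs fun _ => 1
  exact ⟨H, fun j => congrFun hH j⟩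

/-- The root spaces span `L`. -/
theorem TypA.span_top (he : TypA A m e) (h : CartanBasis θ b) (hG : IsAdj b G) (hA : MaxFlat θ A) (K : Submodule ℝ L)
    (h0 : rsp A 0 ≤ K) (h1 : ∀ i j, i ≠ j → rsp A (e i - e j) ≤ K) : K = ⊤ := by
  have hSA := selfAdj_of_aut h hG
  have hV := isFlat_map h hG hA
  have hlie : lie G = lie (autG b) := lie_eq' hG.aut (Pool.Agent.Helper96.SA.lie_sub h hG)
  obtain ⟨cm, hinj, hcm, htr, hrt, hwt⟩ := exists_cm h hG hA
  rw [eq_top_iff]
  intro x _
  have hx : TT_to b x ∈ lie G := by rw [hlie]; exact TT_mem_to b x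
  have h2 := decomp hSA.closed hV hx
  have h3 : Submodule.span ℝ {Z | ∃ D ∈ A.map (TT_to b), Wt G (A.map (TT_to b)) D Z} ≤ K.map (TT_to b) := by
    rw [Submodule.span_le]
    rintro Z ⟨D, hD, hZ⟩
    obtain ⟨z, rfl⟩ := TT_surj_to h (hlie ▸ hZ.1)
    obtain ⟨y, hy, rfl⟩ := hD
    -- the functional
    obtain ⟨φ, hφ⟩ : ∃ φ, cm φ = TT_to b y := by
      have hF : Module.Finite ℝ L := Module.Finite.of_basis b
      let cm' : Module.Dual ℝ A →ₗ[ℝ] A.map (TT_to b) := cm.codRestrict _ hcm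
      have hi : Function.Injective cm' := fun φ ψ h4 => hinj (congrArg Subtype.val h4)
      have hsu : Function.Surjective cm' := by
        refine (LinearMap.injective_iff_surjective_of_finrank_eq_finrank ?_).1 hi
        rw [Subspace.dual_finrank_eq, finrank_map_to (TT_inj_to h)]
      obtain ⟨φ, h5⟩ := hsu ⟨TT_to b y, y, hy, rfl⟩
      exact ⟨φ, congrArg Subtype.val h5⟩
    rw [← hφ] at hZ
    have h4 := (hwt φ z).2 hZ
    refine ⟨z, ?_, rfl⟩
    by_cases h5 : φ = 0
    · rw [h5] at h4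
      exact h0 h4
    · by_cases h6 : z = 0
      · rw [h6]
        exact K.zero_mem
      · obtain ⟨i, j, hij, h7⟩ := (he.rts φ).1 ⟨h5, z, h6, h4⟩
        rw [h7] at h4
        exact h1 i j hij h4
  obtain ⟨y, hy, hyx⟩ := h3 h2
  rw [← TT_inj_to h hyx]
  exact hy

/-- Linear maps which agree on the root spaces. -/
theorem TypA.ext_rsp (he : TypA A m e) (h : CartanBasis θ b) (hG : IsAdj b G) (hA : MaxFlat θ A) {E : Type} [AddCommGroup E] [Module ℝ E]
    {f g : L →ₗ[ℝ] E} (h0 : ∀ x ∈ rsp A 0, f x = g x) (h1 : ∀ i j, i ≠ j → ∀ x ∈ rsp A (e i - e j), f x = g x) : f = g := by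
  have h2 := he.span_top h hG hA (LinearMap.eqLocus f g) (fun x hx => h0 x hx) (fun i j hij x hx => h1 i j hij x hx)
  refine LinearMap.ext fun x => ?_
  have h3 : x ∈ LinearMap.eqLocus f g := by
    rw [h2]
    exact Submodule.mem_top
  exact h3

/-- The projections on the root spaces. -/
theorem TypA.exists_proj (he : TypA A m e) (h : CartanBasis θ b) (hG : IsAdj b G) (hA : MaxFlat θ A) :
    ∃ P : Fin (m + 1) → Fin (m + 1) → (L →ₗ[ℝ] L), ∀ i j, i ≠ j → (∀ x, P i j x ∈ rsp A (e i - e j)) ∧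
      (∀ x ∈ rsp A 0, P i j x = 0) ∧ ∀ k l, k ≠ l → ∀ x ∈ rsp A (e k - e l), P i j x = if k = i ∧ l = j then x else 0 := by
  classical
  have hF : Module.Finite ℝ L := Module.Finite.of_basis b
  -- the finite set of the functionals
  obtain ⟨F, hFd⟩ : ∃ F : Finset (Module.Dual ℝ A), F = insert 0 (Finset.univ.image fun p : Fin (m + 1) × Fin (m + 1) => e p.1 - e p.2) := ⟨_, rfl⟩
  have h0F : (0 : Module.Dual ℝ A) ∈ F := by
    rw [hFd]
    exact Finset.mem_insert_self _ _
  have hijF : ∀ i j, e i - e j ∈ F := by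
    intro i j
    rw [hFd]
    exact Finset.mem_insert_of_mem (Finset.mem_image.2 ⟨(i, j), Finset.mem_univ _, rfl⟩)
  obtain ⟨h₀, hh⟩ : ∃ h₀ : A, ∀ p : {p : F × F // p.1 ≠ p.2}, ((p.1.1 : Module.Dual ℝ A) - p.1.2) h₀ ≠ 0 := by
    refine Module.Dual.exists_forall_ne_zero_of_forall_exists _ fun p => ?_
    by_contra hcon
    push Not at hcon
    exact p.2 (Subtype.ext (sub_eq_zero.1 (LinearMap.ext hcon)))
  have hinj : Set.InjOn (fun φ : Module.Dual ℝ A => φ h₀) F := by
    intro φ hφ ψ hψ hφψ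
    by_contra hne
    refine hh ⟨(⟨φ, hφ⟩, ⟨ψ, hψ⟩), fun h1 => hne (congrArg Subtype.val h1)⟩ ?_
    show (φ - ψ) h₀ = 0
    rw [LinearMap.sub_apply]
    exact sub_eq_zero.2 hφψ
  let p : Module.Dual ℝ A → Polynomial ℝ := fun φ => Lagrange.basis F (fun φ : Module.Dual ℝ A => φ h₀) φ
  have hev : ∀ φ ψ x, x ∈ rsp A ψ → Polynomial.aeval (LieAlgebra.ad ℝ L (h₀ : L) : Module.End ℝ L) (p φ) x = (p φ).eval (ψ h₀) • x := by
    intro φ ψ x hx
    exact Module.End.aeval_apply_of_mem_apply_eq_smul (by rw [LieAlgebra.ad_apply]; exact hx h₀)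
  -- affine independence
  have hne : ∀ i j k l, i ≠ j → k ≠ l → ¬ (k = i ∧ l = j) → e i - e j ≠ e k - e l := by
    intro i j k l hij hkl hne h1
    have h2 := he.four (p := i) (q := j) (r := i) (s := i) (k := k) (l := l) (by rw [sub_self, add_zero, h1])
    have h3 := h2 i
    have h4 := h2 j
    simp only [Pi.single_apply, if_true, if_neg hij, if_neg hij.symm] at h3 h4
    apply hne
    constructor
    · by_contra hki
      rw [if_neg (fun h5 => hki h5.symm)] at h3
      by_cases hil : i = l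
      · rw [if_pos hil] at h3
        norm_num at h3
      · rw [if_neg hil] at h3
        norm_num at h3
    · by_contra hlj
      rw [if_neg (fun h5 : j = l => hlj h5.symm)] at h4
      by_cases hjk : j = k
      · rw [if_pos hjk] at h4
        norm_num at h4
      · rw [if_neg hjk] at h4
        norm_num at h4
  have hne0 : ∀ i j, i ≠ j → e i - e j ≠ 0 := by
    intro i j hij h1
    exact ((he.rts _).2 ⟨i, j, hij, rfl⟩).1 h1
  refine ⟨fun i j => Polynomial.aeval (LieAlgebra.ad ℝ L (h₀ : L) : Module.End ℝ L) (p (e i - e j)), fun i j hij => ?_⟩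
  have e1 : ∀ x ∈ rsp A 0, Polynomial.aeval (LieAlgebra.ad ℝ L (h₀ : L) : Module.End ℝ L) (p (e i - e j)) x = 0 := by
    intro x hx
    have h9 : (p (e i - e j)).eval ((0 : Module.Dual ℝ A) h₀) = 0 :=
      Lagrange.eval_basis_of_ne (v := fun φ : Module.Dual ℝ A => φ h₀) (hne0 i j hij) h0F
    rw [hev _ _ _ hx, h9, zero_smul]
  have e2 : ∀ k l, k ≠ l → ∀ x ∈ rsp A (e k - e l), Polynomial.aeval (LieAlgebra.ad ℝ L (h₀ : L) : Module.End ℝ L) (p (e i - e j)) x =
      if k = i ∧ l = j then x else 0 := by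
    intro k l hkl x hx
    rw [hev _ _ _ hx]
    by_cases h1 : k = i ∧ l = j
    · rw [if_pos h1]
      obtain ⟨rfl, rfl⟩ := h1
      have h9 : (p (e k - e l)).eval ((e k - e l) h₀) = 1 := Lagrange.eval_basis_self hinj (hijF _ _)
      rw [h9, one_smul]
    · have h9 : (p (e i - e j)).eval ((e k - e l) h₀) = 0 :=
        Lagrange.eval_basis_of_ne (v := fun φ : Module.Dual ℝ A => φ h₀) (hne i j k l hij hkl h1) (hijF _ _)
      rw [if_neg h1, h9, zero_smul]
  refine ⟨fun x => ?_, e1, e2⟩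
  have h3 := he.span_top h hG hA ((rsp A (e i - e j)).comap (Polynomial.aeval (LieAlgebra.ad ℝ L (h₀ : L) : Module.End ℝ L) (p (e i - e j))))
    (fun x hx => by
      rw [Submodule.mem_comap, e1 x hx]
      exact Submodule.zero_mem _) (fun k l hkl x hx => by
      rw [Submodule.mem_comap, e2 k l hkl x hx]
      split_ifs with h1
      · rw [← h1.1, ← h1.2]
        exact hx
      · exact Submodule.zero_mem _)
  have h4 : x ∈ (rsp A (e i - e j)).comap (Polynomial.aeval (LieAlgebra.ad ℝ L (h₀ : L) : Module.End ℝ L) (p (e i - e j))) := by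
    rw [h3]
    exact Submodule.mem_top
  exact h4

end Pool.Agent.Helper77.LA
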