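import Pool.Agent.Helper77.LA.Base

/-!
# Project TZ, block LIE, part Root: the root spaces of a Lie algebra of type `A` have the same dimension

`α = e i - e j`, `β = e j - e k` (`i, j, k` different) are not orthogonal: `α + β` is a root, and `rt_refl` for `α + β`, `β` would give that `α - β` is a root. `α - β` is not a root, so for `y ∈ L_β`, `x ∈ L_α`, `[y, x] = 0`:
`[θ y, x] = 0` and `0 = [θ y, [y, x]] = [[θ y, y], x]`, a nonzero multiple of `x` (`coroot`).
-/

set_option autoImplicit false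

open Matrix

namespace Pool.Agent.Helper77.LA

open Pool.Agent.Helper96.SA Pool.Agent.Helper96.TO

variable {L : Type} [LieRing L] [LieAlgebra ℝ L] {N m : ℕ} {θ : L ≃ₗ⁅ℝ⁆ L} {b : Module.Basis (Fin N) ℝ L}
  {G : Subgroup (GL (Fin N) ℝ)} {A : Submodule ℝ L} {e : Fin (m + 1) → Module.Dual ℝ A}

theorem theta_rsp (h : CartanBasis θ b) (hA : MaxFlat θ A) {φ : Module.Dual ℝ A} {x : L} (hx : x ∈ rsp A φ) : θ x ∈ rsp A (-φ) := by
  intro y
  have h1 : ⁅(y : L), θ x⁆ = θ ⁅θ (y : L), x⁆ := by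
    rw [LieEquiv.map_lie, h.invol]
  rw [h1, hA.neg _ y.2, neg_lie, hx y, map_neg, map_smul, LinearMap.neg_apply, neg_smul]

/-- Two roots with sum a root and difference not a root are not orthogonal. -/
theorem TypA.nonorth (he : TypA A m e) (h : CartanBasis θ b) (hG : IsAdj b G) (hA : MaxFlat θ A) {cm : Module.Dual ℝ A →ₗ[ℝ] Mat N}
    (h1 : ∀ φ, cm φ ∈ A.map (TT_to b)) (h2 : ∀ φ, φ ∈ rootsL A ↔ cm φ ∈ Rt G (A.map (TT_to b))) {i j k : Fin (m + 1)} (hij : i ≠ j) (hjk : j ≠ k)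
    (hik : i ≠ k) : (cm (e i - e j) * cm (e j - e k)).trace ≠ 0 := by
  have hSA := selfAdj_of_aut h hG
  have hV := isFlat_map h hG hA
  intro h0
  have hB := (h2 (e j - e k)).1 ((he.rts _).2 ⟨j, k, hjk, rfl⟩)
  have hC := (h2 (e i - e k)).1 ((he.rts _).2 ⟨i, k, hik, rfl⟩)
  have e1 : cm (e i - e k) = cm (e i - e j) + cm (e j - e k) := by
    rw [← map_add]
    congr 1
    abel
  obtain ⟨n, h3, h4⟩ := rt_refl hSA.closed (fun X hX => lie_transpose hSA hX) hV (max_map h hG hA) hC hB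
  have hpos := trace_self_pos (hV.symm _ hB.1) hB.2.1
  rw [e1, Matrix.add_mul, Matrix.trace_add, h0, zero_add] at h3
  have hn : (n : ℝ) = 2 := (mul_right_cancel₀ hpos.ne' h3).symm
  rw [hn] at h4
  have e2 : cm (e i - e k) - (2 : ℝ) • cm (e j - e k) = cm ((e i - e j) + (e k - e j)) := by
    rw [← map_smul, ← map_sub]
    congr 1
    rw [two_smul]
    abel
  rw [e2, ← h2, he.rts] at h4
  obtain ⟨k', l', -, h5⟩ := h4
  have h6 := he.four h5 j
  simp only [Pi.single_apply, if_neg hij.symm, if_neg hjk, if_true] at h6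
  by_cases h7 : j = k' <;> by_cases h8 : j = l'
  · rw [if_pos h7, if_pos h8] at h6
    norm_num at h6
  · rw [if_pos h7, if_neg h8] at h6
    norm_num at h6
  · rw [if_neg h7, if_pos h8] at h6
    norm_num at h6
  · rw [if_neg h7, if_neg h8] at h6
    norm_num at h6

/-- The basic computation. -/
theorem inj_aux (h : CartanBasis θ b) (hG : IsAdj b G) (hA : MaxFlat θ A) {cm : Module.Dual ℝ A →ₗ[ℝ] Mat N}
    (h1 : ∀ φ, cm φ ∈ A.map (TT_to b)) (h2 : ∀ φ x, x ∈ rsp A φ ↔ Wt G (A.map (TT_to b)) (cm φ) (TT_to b x))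
    {φ ψ : Module.Dual ℝ A} (hne : (cm φ * cm ψ).trace ≠ 0) {x y : L} (hy : y ∈ rsp A ψ) (hy0 : y ≠ 0) (hx : x ∈ rsp A φ)
    (hyx : ⁅y, x⁆ = 0) (hθ : ⁅θ y, x⁆ = 0) : x = 0 := by
  have hSA := selfAdj_of_aut h hG
  have hV := isFlat_map h hG hA
  have h3 : ⁅⁅θ y, y⁆, x⁆ = 0 := by
    rw [lie_lie, hyx, hθ, lie_zero, lie_zero, sub_zero]
  have h4 : TT_to b ⁅θ y, y⁆ = (TT_to b y * (TT_to b y)ᵀ).trace • cm ψ := by
    rw [← coroot hSA.closed (fun X hX => lie_transpose hSA hX) hV (max_map h hG hA) (h1 ψ) ((h2 ψ y).1 hy), TT_lie_to, TT_transpose_to h]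
    rw [Matrix.mul_neg, Matrix.neg_mul]
    abel
  have h5 := congrArg (TT_to b) h3
  rw [TT_lie_to, h4, map_zero, Matrix.smul_mul, Matrix.mul_smul, ← smul_sub, ((h2 φ x).1 hx).2 _ (h1 ψ), smul_smul] at h5
  have h6 : (TT_to b y * (TT_to b y)ᵀ).trace ≠ 0 := by
    refine (trace_mul_transpose_pos fun h7 => hy0 ?_).ne'
    exact TT_inj_to h (by rw [h7, map_zero])
  have h7 : TT_to b x = 0 := by
    rcases smul_eq_zero.1 h5 with h8 | h8
    · exact absurd h8 (mul_ne_zero h6 hne)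
    · exact h8
  exact TT_inj_to h (by rw [h7, map_zero])

theorem TypA.inj1 (he : TypA A m e) (h : CartanBasis θ b) (hG : IsAdj b G) (hA : MaxFlat θ A) {i j k : Fin (m + 1)} (hij : i ≠ j) (hjk : j ≠ k)
    (hik : i ≠ k) {x y : L} (hy : y ∈ rsp A (e j - e k)) (hy0 : y ≠ 0) (hx : x ∈ rsp A (e i - e j)) (hyx : ⁅y, x⁆ = 0) : x = 0 := by
  obtain ⟨cm, -, h1, -, h2, h3⟩ := exists_cm h hG hA
  refine inj_aux h hG hA h1 h3 (he.nonorth h hG hA h1 h2 hij hjk hik) hy hy0 hx hyx ?_
  have h4 := rsp_lie (theta_rsp h hA hy) hx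
  rw [neg_sub] at h4
  have key : ∀ k' l' : Fin (m + 1), e k - e j + (e i - e j) ≠ e k' - e l' := by
    intro k' l' h5
    have h6 := he.four h5 j
    simp only [Pi.single_apply, if_neg hij.symm, if_neg hjk, if_true] at h6
    by_cases h7 : j = k' <;> by_cases h8 : j = l'
    · rw [if_pos h7, if_pos h8] at h6
      norm_num at h6
    · rw [if_pos h7, if_neg h8] at h6
      norm_num at h6
    · rw [if_neg h7, if_pos h8] at h6
      norm_num at h6
    · rw [if_neg h7, if_neg h8] at h6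
      norm_num at h6
  exact he.zero_of h4 (fun h5 => key 0 0 (by rw [h5, sub_self])) fun k' l' _ => key k' l'

theorem TypA.inj2 (he : TypA A m e) (h : CartanBasis θ b) (hG : IsAdj b G) (hA : MaxFlat θ A) {i j k : Fin (m + 1)} (hij : i ≠ j) (hjk : j ≠ k)
    (hik : i ≠ k) {x y : L} (hy : y ∈ rsp A (e j - e k)) (hy0 : y ≠ 0) (hx : x ∈ rsp A (e k - e i)) (hyx : ⁅y, x⁆ = 0) : x = 0 := by
  obtain ⟨cm, -, h1, -, h2, h3⟩ := exists_cm h hG hA
  refine inj_aux h hG hA h1 h3 (by rw [Matrix.trace_mul_comm]; exact he.nonorth h hG hA h1 h2 hjk hik.symm hij.symm) hy hy0 hx hyx ?_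
  have h4 := rsp_lie (theta_rsp h hA hy) hx
  rw [neg_sub] at h4
  have key : ∀ k' l' : Fin (m + 1), e k - e j + (e k - e i) ≠ e k' - e l' := by
    intro k' l' h5
    have h6 := he.four h5 k
    simp only [Pi.single_apply, if_neg hik.symm, if_neg hjk.symm, if_true] at h6
    by_cases h7 : k = k' <;> by_cases h8 : k = l'
    · rw [if_pos h7, if_pos h8] at h6
      norm_num at h6
    · rw [if_pos h7, if_neg h8] at h6
      norm_num at h6
    · rw [if_neg h7, if_pos h8] at h6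
      norm_num at h6
    · rw [if_neg h7, if_neg h8] at h6
      norm_num at h6
  exact he.zero_of h4 (fun h5 => key 0 0 (by rw [h5, sub_self])) fun k' l' _ => key k' l'

theorem TypA.dim_eq (he : TypA A m e) (h : CartanBasis θ b) (hG : IsAdj b G) (hA : MaxFlat θ A) (hm : 2 ≤ m) {i j k l : Fin (m + 1)}
    (hij : i ≠ j) (hkl : k ≠ l) : Module.finrank ℝ (rsp A (e i - e j)) = Module.finrank ℝ (rsp A (e k - e l)) := by
  have hF : Module.Finite ℝ L := Module.Finite.of_basis b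
  have hroot : ∀ i j : Fin (m + 1), i ≠ j → ∃ y ∈ rsp A (e i - e j), y ≠ 0 := by
    intro i j hij
    obtain ⟨-, y, hy0, hy⟩ := (he.rts _).2 ⟨i, j, hij, rfl⟩
    exact ⟨y, hy, hy0⟩
  have a1 : ∀ i j k : Fin (m + 1), i ≠ j → j ≠ k → i ≠ k →
      Module.finrank ℝ (rsp A (e i - e j)) ≤ Module.finrank ℝ (rsp A (e i - e k)) := by
    intro i j k hij hjk hik
    obtain ⟨y, hy, hy0⟩ := hroot j k hjk
    have hmem : ∀ x ∈ rsp A (e i - e j), LieAlgebra.ad ℝ L y x ∈ rsp A (e i - e k) := by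
      intro x hx
      have h1 := rsp_lie hy hx
      have h2 : e j - e k + (e i - e j) = e i - e k := by abel
      rwa [h2] at h1
    refine LinearMap.finrank_le_finrank_of_injective (f := (LieAlgebra.ad ℝ L y : L →ₗ[ℝ] L).restrict hmem) ?_
    rw [injective_iff_map_eq_zero]
    intro x hx
    have h1 : ⁅y, (x : L)⁆ = 0 := congrArg Subtype.val hx
    exact Subtype.ext (he.inj1 h hG hA hij hjk hik hy hy0 x.2 h1)
  have a2 : ∀ i j k : Fin (m + 1), i ≠ j → j ≠ k → i ≠ k →
      Module.finrank ℝ (rsp A (e k - e i)) ≤ Module.finrank ℝ (rsp A (e j - e i)) := by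
    intro i j k hij hjk hik
    obtain ⟨y, hy, hy0⟩ := hroot j k hjk
    have hmem : ∀ x ∈ rsp A (e k - e i), LieAlgebra.ad ℝ L y x ∈ rsp A (e j - e i) := by
      intro x hx
      have h1 := rsp_lie hy hx
      have h2 : e j - e k + (e k - e i) = e j - e i := by abel
      rwa [h2] at h1
    refine LinearMap.finrank_le_finrank_of_injective (f := (LieAlgebra.ad ℝ L y : L →ₗ[ℝ] L).restrict hmem) ?_
    rw [injective_iff_map_eq_zero]
    intro x hx
    have h1 : ⁅y, (x : L)⁆ = 0 := congrArg Subtype.val hx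
    exact Subtype.ext (he.inj2 h hG hA hij hjk hik hy hy0 x.2 h1)
  have b1 : ∀ i j k : Fin (m + 1), i ≠ j → i ≠ k →
      Module.finrank ℝ (rsp A (e i - e j)) = Module.finrank ℝ (rsp A (e i - e k)) := by
    intro i j k hij hik
    by_cases hjk : j = k
    · rw [hjk]
    · exact le_antisymm (a1 i j k hij hjk hik) (a1 i k j hik (Ne.symm hjk) hij)
  have b2 : ∀ i j k : Fin (m + 1), i ≠ j → i ≠ k →
      Module.finrank ℝ (rsp A (e j - e i)) = Module.finrank ℝ (rsp A (e k - e i)) := by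
    intro i j k hij hik
    by_cases hjk : j = k
    · rw [hjk]
    · exact le_antisymm (a2 i k j hik (Ne.symm hjk) hij) (a2 i j k hij hjk hik)
  by_cases hil : i = l
  · by_cases hkj : k = j
    · subst hil
      subst hkj
      obtain ⟨t, ht1, ht2⟩ : ∃ t : Fin (m + 1), t ≠ i ∧ t ≠ k := by
        by_contra hcon
        push Not at hcon
        have h1 : (Finset.univ : Finset (Fin (m + 1))) ⊆ {i, k} := by
          intro t _
          rw [Finset.mem_insert, Finset.mem_singleton]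
          by_cases ht : t = i
          · exact Or.inl ht
          · exact Or.inr (hcon t ht)
        have h2 := Finset.card_le_card h1
        have h3 := Finset.card_le_two (a := i) (b := k)
        rw [Finset.card_univ, Fintype.card_fin] at h2
        omega
      rw [b1 i k t hij ht1.symm, b2 t i k ht1 ht2, b1 k t i ht2.symm hkl]
    · rw [b2 j i k hij.symm (Ne.symm hkj), b1 k j l hkj hkl]
  · rw [b1 i j l hij hil, b2 l i k (Ne.symm hil) hkl.symm]

end Pool.Agent.Helper77.LA
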